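import Pool.Agent.H532Z.CLRho

/-! A strong Bernstein-type set in the Cantor set. -/

set_option autoImplicit false

namespace Pool.Agent.H532Z.CL

open Set Cardinal Filter Topology

abbrev Cn : Type := ℕ → Bool
abbrev V : Type := ℕ → Cn

/-- eventually `false` -/
def Qz (x : Cn) : Prop := ∃ n, ∀ i, n ≤ i → x i = false

def agree (k : ℕ) (z w : V) : Prop := ∀ j, j < k → ∀ i, i < k → z j i = w j i

theorem agree.refl (k : ℕ) (z : V) : agree k z z := fun _ _ _ _ => rfl
theorem agree.symm {k : ℕ} {z w : V} (h : agree k z w) : agree k w z :=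
  fun j hj i hi => (h j hj i hi).symm
theorem agree.trans {k : ℕ} {z w u : V} (h : agree k z w) (h' : agree k w u) : agree k z u :=
  fun j hj i hi => (h j hj i hi).trans (h' j hj i hi)
theorem agree.mono {k k' : ℕ} {z w : V} (h : agree k z w) (hk : k' ≤ k) : agree k' z w :=
  fun j hj i hi => h j (hj.trans_le hk) i (hi.trans_le hk)

theorem isOpen_agree (k : ℕ) (t : V) : IsOpen {z | agree k z t} := by
  have : {z | agree k z t} = ⋂ j ∈ Iio k, ⋂ i ∈ Iio k, {z : V | z j i = t j i} := by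
    ext z; simp [agree]
  rw [this]
  refine (finite_Iio k).isOpen_biInter fun j _ => (finite_Iio k).isOpen_biInter fun i _ => ?_
  exact (isOpen_discrete {t j i}).preimage (f := fun z : V => z j i) (by fun_prop)

theorem mem_of_agree {F : Set V} (hF : IsClosed F) {w : V}
    (h : ∀ n, ∃ z ∈ F, agree n z w) : w ∈ F := by
  choose z hz hzw using h
  refine hF.mem_of_tendsto (f := z) (b := atTop) ?_ (Eventually.of_forall hz)
  refine tendsto_pi_nhds.2 fun j => tendsto_pi_nhds.2 fun i => ?_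
  refine tendsto_const_nhds.congr' ?_
  filter_upwards [eventually_gt_atTop j, eventually_gt_atTop i] with n h1 h2
  exact (hzw n j h1 i h2).symm

theorem countable_Qz : {x : Cn | Qz x}.Countable := by
  have : {x : Cn | Qz x} ⊆ range (fun s : Finset ℕ => fun i => decide (i ∈ s)) := by
    rintro x ⟨n, hn⟩
    refine ⟨(Finset.range n).filter (fun i => x i = true), ?_⟩
    funext i
    by_cases hi : i < n
    · cases h : x i <;> simp [h, hi]
    · simp [hi, hn i (not_lt.1 hi)]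
  exact (countable_range _).mono this

/-- covered by countably many hyperplanes -/
def Cov (J : Finset ℕ) (F : Set V) : Prop :=
  ∃ E : Set Cn, E.Countable ∧ ∀ z ∈ F, ∃ j ∈ J, z j ∈ E

theorem mk_Cn : #Cn = continuum := by simp [Cn]

theorem perfect_avoid {J : Finset ℕ} {F : Set V} (hF : IsClosed F) (hc : ¬ Cov J F)
    {E : Set Cn} (hE : #E < continuum) : ∃ z ∈ F, ∀ j ∈ J, z j ∉ E := by
  classical
  let F' : Set V := {z | z ∈ F ∧ ∀ k, ¬ Cov J (F ∩ {w | agree k w z})}
  have hsmall : Cov J (F \ F') := by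
    have h1 : ∀ z ∈ F \ F', ∃ k, Cov J (F ∩ {w | agree k w z}) := by
      intro z hz
      by_contra h
      push Not at h
      exact hz.2 ⟨hz.1, h⟩
    choose! k hk using h1
    obtain ⟨T, hT, hTc, hTU⟩ := TopologicalSpace.countable_cover_nhdsWithin
      (s := F \ F') (f := fun z => {w | agree (k z) w z}) (fun z _ =>
        mem_nhdsWithin_of_mem_nhds ((isOpen_agree _ _).mem_nhds (agree.refl _ _)))
    choose! E hE1 hE2 using hk
    refine ⟨⋃ z ∈ T, E z, hTc.biUnion fun z hz => hE1 z (hT hz), fun w hw => ?_⟩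
    obtain ⟨z, hz, hwz⟩ := mem_iUnion₂.1 (hTU hw)
    obtain ⟨j, hj, h⟩ := hE2 z (hT hz) w ⟨hw.1, hwz⟩
    exact ⟨j, hj, mem_biUnion hz h⟩
  have hsplit : ∀ (z : F') (k : ℕ), ∃ (z' : F') (k' : ℕ), k < k' ∧ agree k z'.1 z.1 ∧
      ∀ j ∈ J, j < k' ∧ ∃ i, i < k' ∧ z'.1 j i ≠ z.1 j i := by
    intro z k
    obtain ⟨E0, hE0, hE0'⟩ := hsmall
    have h1 := z.2.2 k
    have h2 : ∃ z' ∈ F ∩ {w | agree k w z.1}, ∀ j ∈ J, z' j ∉ E0 ∪ range z.1 := by
      by_contra h
      push Not at h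
      exact h1 ⟨_, hE0.union (countable_range _), h⟩
    obtain ⟨z', ⟨hz'F, hz'a⟩, hz'⟩ := h2
    have h3 : z' ∈ F' := by
      by_contra h
      obtain ⟨j, hj, h4⟩ := hE0' z' ⟨hz'F, h⟩
      exact hz' j hj (Or.inl h4)
    have h4 : ∀ᶠ k' in atTop, ∀ j ∈ J, j < k' ∧ ∃ i, i < k' ∧ z' j i ≠ z.1 j i := by
      rw [eventually_all_finset]
      intro j hj
      obtain ⟨i, hi⟩ : ∃ i, z' j i ≠ z.1 j i := by
        by_contra h
        push Not at h
        exact hz' j hj (Or.inr ⟨j, (funext h).symm⟩)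
      filter_upwards [eventually_gt_atTop j, eventually_gt_atTop i] with n h1 h2
      exact ⟨h1, i, h2, hi⟩
    obtain ⟨k', h5, h6⟩ := (h4.and (eventually_gt_atTop k)).exists
    exact ⟨⟨z', h3⟩, k', h6, hz'a, h5⟩
  choose nz nk h1 h2 h3 using hsplit
  have hne : F'.Nonempty := by
    by_contra h
    rw [not_nonempty_iff_eq_empty] at h
    rw [h, sdiff_empty] at hsmall
    exact hc hsmall
  obtain ⟨z0, hz0⟩ := hne
  let st : (ℕ → Bool) → ℕ → F' × ℕ := fun σ n => Nat.rec (⟨z0, hz0⟩, 0)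
    (fun n s => (if σ n then nz s.1 s.2 else s.1, nk s.1 s.2)) n
  have hst : ∀ σ n, st σ (n + 1) =
      (if σ n then nz (st σ n).1 (st σ n).2 else (st σ n).1, nk (st σ n).1 (st σ n).2) :=
    fun _ _ => rfl
  have hk : ∀ σ, StrictMono fun n => (st σ n).2 := fun σ =>
    strictMono_nat_of_lt_succ fun n => h1 _ _
  have hag : ∀ σ n m, n ≤ m → agree (st σ n).2 (st σ m).1.1 (st σ n).1.1 := by
    intro σ n m hnm
    induction m, hnm using Nat.le_induction with
    | base => exact agree.refl _ _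
    | succ m hnm ih =>
      refine agree.trans (agree.mono ?_ ((hk σ).monotone hnm)) ih
      rw [hst]
      dsimp only
      split_ifs
      · exact h2 _ _
      · exact agree.refl _ _
  let w : (ℕ → Bool) → V := fun σ j i => (st σ (j + i + 1)).1.1 j i
  have hw : ∀ σ n, agree (st σ n).2 (w σ) (st σ n).1.1 := by
    intro σ n j hj i hi
    have h4 : j + i + 1 ≤ (st σ (j + i + 1)).2 := (hk σ).id_le _
    rcases le_total n (j + i + 1) with h | h
    · exact hag σ n _ h j hj i hi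
    · exact (hag σ _ n h j (by omega) i (by omega)).symm
  have hwF : ∀ σ, w σ ∈ F := fun σ => mem_of_agree hF fun n =>
    ⟨(st σ n).1.1, (st σ n).1.2.1, (hw σ n).symm.mono ((hk σ).id_le n)⟩
  have hinj : ∀ σ τ, ∀ j ∈ J, w σ j = w τ j → σ = τ := by
    intro σ τ j hj hst'
    by_contra hne
    have hex : ∃ n, σ n ≠ τ n := by
      by_contra h
      push Not at h
      exact hne (funext h)
    let n := Nat.find hex
    have hn : σ n ≠ τ n := Nat.find_spec hex
    have heq : ∀ m, m ≤ n → st σ m = st τ m := by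
      intro m hm
      induction m with
      | zero => rfl
      | succ m ih =>
        have h5 : σ m = τ m := by
          by_contra h
          exact Nat.find_min hex (show m < n by omega) h
        rw [hst, hst, ih (by omega), h5]
    obtain ⟨h5, i, h6, h7⟩ := h3 (st σ n).1 (st σ n).2 j hj
    have e1 := hw σ (n + 1) j h5 i h6
    have e2 := hw τ (n + 1) j (by rw [hst, ← heq n le_rfl]; exact h5) i
      (by rw [hst, ← heq n le_rfl]; exact h6)
    rw [hst'] at e1
    rw [e1, hst, hst, ← heq n le_rfl] at e2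
    dsimp only at e2
    cases h8 : σ n <;> cases h9 : τ n <;> simp_all
  by_contra hcon
  push Not at hcon
  choose j hj hjE using fun σ => hcon (w σ) (hwF σ)
  have h4 := mk_le_of_injective (f := fun σ => ((j σ, ⟨w σ (j σ), hjE σ⟩) : ℕ × E)) (by
    intro σ τ h
    have e1 : j σ = j τ := congrArg Prod.fst h
    have e2 : w σ (j σ) = w τ (j τ) := congrArg (fun p : ℕ × E => p.2.1) h
    rw [← e1] at e2
    exact hinj σ τ _ (hj σ) e2)
  have h5 : #(ℕ × E) < continuum := by
    simp only [mk_prod, lift_id, mk_nat]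
    exact mul_lt_of_lt aleph0_le_continuum aleph0_lt_continuum hE
  exact absurd (mk_Cn.symm.le.trans h4) (not_le.2 h5)

theorem mk_closed : #{F : Set V // IsClosed F} ≤ continuum := by
  obtain ⟨b, hb, -, hB⟩ := TopologicalSpace.exists_countable_basis V
  have : Countable b := hb
  have h := mk_le_of_injective (f := fun F : {F : Set V // IsClosed F} =>
    {u : b | u.1 ⊆ F.1ᶜ}) (by
      intro F G h
      have key : ∀ F G : {F : Set V // IsClosed F},
          {u : b | u.1 ⊆ F.1ᶜ} = {u : b | u.1 ⊆ G.1ᶜ} → F.1ᶜ ⊆ G.1ᶜ := by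
        intro F G h x hx
        obtain ⟨u, hu, hxu, hu'⟩ := hB.exists_subset_of_mem_open hx F.2.isOpen_compl
        have : (⟨u, hu⟩ : b) ∈ {u : b | u.1 ⊆ F.1ᶜ} := hu'
        rw [h] at this
        exact this hxu
      exact Subtype.ext (compl_injective ((key F G h).antisymm (key G F h.symm))))
  refine h.trans ?_
  rw [mk_set, ← two_power_aleph0]
  exact power_le_power_left two_ne_zero mk_le_aleph0

theorem exists_bernstein : ∃ d : Lam → Cn, Function.Injective d ∧ (∀ α, ¬ Qz (d α)) ∧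
    ∀ (J : Finset ℕ) (F : Set V), IsClosed F →
      (∀ z ∈ F, ∃ j ∈ J, z j ∈ range d ∨ Qz (z j)) → Cov J F := by
  classical
  obtain ⟨e, he⟩ : ∃ e : Lam → {F : Set V // IsClosed F} × Finset ℕ, Function.Surjective e := by
    have hne : Nonempty ({F : Set V // IsClosed F} × Finset ℕ) := ⟨⟨⟨∅, isClosed_empty⟩, ∅⟩⟩
    obtain ⟨f⟩ : Nonempty (({F : Set V // IsClosed F} × Finset ℕ) ↪ Lam) := by
      rw [← Cardinal.le_def, mk_Lam]
      simp only [mk_prod, lift_id]
      exact mul_le_of_le aleph0_le_continuum mk_closed (mk_le_aleph0.trans aleph0_le_continuum)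
    exact ⟨Function.invFun f, Function.invFun_surjective f.injective⟩
  have hQ : #{x : Cn | Qz x} < continuum :=
    (countable_Qz.le_aleph0).trans_lt aleph0_lt_continuum
  obtain ⟨f, hf⟩ := rec_choice (I := Lam) (Y := V × Cn)
    (fun α u y => (¬ Cov (e α).2 (e α).1.1 → y.1 ∈ (e α).1.1 ∧ ∀ j ∈ (e α).2,
        ¬ Qz (y.1 j) ∧ ∀ ν, y.1 j ≠ (u ν).2) ∧ ¬ Qz y.2 ∧ (∀ ν, y.2 ≠ (u ν).2) ∧
        (∀ j, y.2 ≠ y.1 j) ∧ ∀ ν j, y.2 ≠ (u ν).1 j) (by
      intro α u
      have h1 : #({x : Cn | Qz x} ∪ range (fun ν => (u ν).2) : Set Cn) < continuum :=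
        (mk_union_le _ _).trans_lt (add_lt_of_lt aleph0_le_continuum hQ
          (mk_range_le.trans_lt (mk_Iio_Lam α)))
      obtain ⟨z, hz⟩ : ∃ z : V, ¬ Cov (e α).2 (e α).1.1 → z ∈ (e α).1.1 ∧ ∀ j ∈ (e α).2,
          ¬ Qz (z j) ∧ ∀ ν, z j ≠ (u ν).2 := by
        by_cases hc : Cov (e α).2 (e α).1.1
        · exact ⟨fun _ _ => false, fun h => absurd hc h⟩
        · obtain ⟨z, hz, hz'⟩ := perfect_avoid (e α).1.2 hc h1
          exact ⟨z, fun _ => ⟨hz, fun j hj => ⟨fun h => hz' j hj (Or.inl h),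
            fun ν h => hz' j hj (Or.inr ⟨ν, h.symm⟩)⟩⟩⟩
      have h2 : #((({x : Cn | Qz x} ∪ range (fun ν => (u ν).2)) ∪ range z) ∪
          range (fun p : Iio α × ℕ => (u p.1).1 p.2) : Set Cn) < continuum := by
        refine (mk_union_le _ _).trans_lt (add_lt_of_lt aleph0_le_continuum
          ((mk_union_le _ _).trans_lt (add_lt_of_lt aleph0_le_continuum h1
            ((countable_range z).le_aleph0.trans_lt aleph0_lt_continuum)))
          (mk_range_le.trans_lt ?_))
        simp only [mk_prod, lift_id, mk_nat]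
        exact mul_lt_of_lt aleph0_le_continuum (mk_Iio_Lam α) aleph0_lt_continuum
      obtain ⟨x, hx⟩ : ∃ x : Cn, x ∉ ((({x : Cn | Qz x} ∪ range (fun ν => (u ν).2)) ∪ range z) ∪
          range (fun p : Iio α × ℕ => (u p.1).1 p.2) : Set Cn) := by
        by_contra h
        push Not at h
        rw [eq_univ_of_forall h, mk_univ, mk_Cn] at h2
        exact lt_irrefl _ h2
      simp only [mem_union, not_or, mem_range, not_exists] at hx
      obtain ⟨⟨⟨hx1, hx2⟩, hx3⟩, hx4⟩ := hx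
      exact ⟨(z, x), hz, hx1, fun ν h => hx2 ν h.symm, fun j h => hx3 j h.symm,
        fun ν j h => hx4 (ν, j) h.symm⟩)
  refine ⟨fun α => (f α).2, ?_, fun α => (hf α).2.1, ?_⟩
  · intro α β h
    rcases lt_trichotomy α β with h1 | h1 | h1
    · exact absurd h.symm ((hf β).2.2.1 ⟨α, h1⟩)
    · exact h1
    · exact absurd h ((hf α).2.2.1 ⟨β, h1⟩)
  · intro J F hF h
    by_contra hc
    obtain ⟨α, hα⟩ := he (⟨F, hF⟩, J)
    have h1 := (hf α).1
    rw [hα] at h1
    obtain ⟨h2, h3⟩ := h1 hc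
    obtain ⟨j, hj, ⟨ν, hν⟩ | h4⟩ := h _ h2
    · rcases lt_trichotomy ν α with h1 | h1 | h1
      · exact (h3 j hj).2 ⟨ν, h1⟩ hν.symm
      · subst h1; exact (hf ν).2.2.2.1 j hν
      · exact (hf ν).2.2.2.2 ⟨α, h1⟩ j hν
    · exact (h3 j hj).1 h4

/-- The finite powers of the Michael-type line are Lindelof, in combinatorial form. -/
theorem lindelof_comb {D : Set Cn}
    (hD : ∀ (J : Finset ℕ) (F : Set V), IsClosed F →
      (∀ z ∈ F, ∃ j ∈ J, z j ∈ D ∨ Qz (z j)) → Cov J F) (k : V → ℕ) (J : Finset ℕ) :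
    ∀ a : V, ∃ T : Set V, T.Countable ∧ (∀ t ∈ T, (∀ j ∈ J, ¬ Qz (t j)) ∧ ∀ j ∉ J, t j = a j) ∧
      ∀ z : V, (∀ j ∈ J, ¬ Qz (z j)) → (∀ j ∉ J, z j = a j) →
        ∃ t ∈ T, agree (k t) z t ∧ ∀ j, t j ∈ D → z j = t j := by
  classical
  induction J using Finset.strongInduction with
  | H J ih =>
    intro a
    let WB : Set V := {z | (∀ j ∈ J, ¬ Qz (z j) ∧ z j ∉ D) ∧ ∀ j ∉ J, z j = a j}
    obtain ⟨T0, hT0c, hT0⟩ := TopologicalSpace.isOpen_iUnion_countable
      (fun t : WB => {z | agree (k t.1) z t.1}) (fun t => isOpen_agree _ _)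
    let F : Set V := {z | ∀ j ∉ J, z j = a j} \ ⋃ t : WB, {z | agree (k t.1) z t.1}
    have hF : IsClosed F := by
      refine IsClosed.sdiff ?_ (isOpen_iUnion fun t => isOpen_agree _ _)
      have : {z : V | ∀ j ∉ J, z j = a j} = ⋂ j ∈ {j | j ∉ J}, {z : V | z j = a j} := by
        ext z; simp
      rw [this]
      exact isClosed_biInter fun j _ => isClosed_eq (by fun_prop) continuous_const
    obtain ⟨E, hE, hEF⟩ := hD J F hF (by
      intro z hz
      by_contra h
      push Not at h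
      exact hz.2 (mem_iUnion.2 ⟨⟨z, fun j hj => ⟨(h j hj).2, (h j hj).1⟩, hz.1⟩, agree.refl _ _⟩))
    have ih' : ∀ j x, j ∈ J → ∃ T : Set V, T.Countable ∧
        (∀ t ∈ T, (∀ i ∈ J.erase j, ¬ Qz (t i)) ∧ ∀ i ∉ J.erase j, t i = Function.update a j x i) ∧
        ∀ z : V, (∀ i ∈ J.erase j, ¬ Qz (z i)) → (∀ i ∉ J.erase j, z i = Function.update a j x i) →
          ∃ t ∈ T, agree (k t) z t ∧ ∀ j, t j ∈ D → z j = t j :=
      fun j x hj => ih _ (Finset.erase_ssubset hj) _
    choose! T hT1 hT2 hT3 using ih'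
    refine ⟨Subtype.val '' T0 ∪ ⋃ j ∈ (J : Set ℕ), ⋃ x ∈ E ∩ {x | ¬ Qz x}, T j x,
      (hT0c.image _).union (J.countable_toSet.biUnion fun j hj =>
        (hE.mono inter_subset_left).biUnion fun x _ => hT1 j x hj), ?_, ?_⟩
    · rintro t (⟨t, -, rfl⟩ | ht)
      · exact ⟨fun j hj => (t.2.1 j hj).1, t.2.2⟩
      · obtain ⟨j, hj, ht⟩ := mem_iUnion₂.1 ht
        obtain ⟨x, hx, ht⟩ := mem_iUnion₂.1 ht
        obtain ⟨h1, h2⟩ := hT2 j x hj t ht
        refine ⟨fun i hi => ?_, fun i hi => ?_⟩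
        · by_cases hij : i = j
          · subst hij
            rw [h2 i (by simp), Function.update_self]
            exact hx.2
          · exact h1 i (Finset.mem_erase.2 ⟨hij, hi⟩)
        · have hij : i ≠ j := fun h => hi (h ▸ hj)
          rw [h2 i (fun h => hi (Finset.mem_of_mem_erase h)), Function.update_of_ne hij]
    · intro z hz1 hz2
      by_cases hzF : z ∈ F
      · obtain ⟨j, hj, hjE⟩ := hEF z hzF
        obtain ⟨t, ht, h⟩ := hT3 j (z j) hj z (fun i hi => hz1 i (Finset.mem_of_mem_erase hi)) (by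
          intro i hi
          by_cases hij : i = j
          · subst hij; simp
          · rw [Function.update_of_ne hij]
            exact hz2 i fun h => hi (Finset.mem_erase.2 ⟨hij, h⟩))
        exact ⟨t, Or.inr (mem_biUnion hj (mem_biUnion ⟨hjE, hz1 j hj⟩ ht)), h⟩
      · have h1 : z ∈ ⋃ t : WB, {z | agree (k t.1) z t.1} := by
          by_contra h
          exact hzF ⟨hz2, h⟩
        rw [← hT0] at h1
        obtain ⟨t, ht, h2⟩ := mem_iUnion₂.1 h1
        refine ⟨t.1, Or.inl ⟨t, ht, rfl⟩, h2, fun j hj => ?_⟩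
        by_cases hjJ : j ∈ J
        · exact absurd hj (t.2.1 j hjJ).2
        · rw [hz2 j hjJ, t.2.2 j hjJ]

end Pool.Agent.H532Z.CL
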