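import Mathlib

/-! A strongly unbounded colouring of pairs of the successor of the continuum (number of steps of
walks along a ladder system). -/

set_option autoImplicit false

namespace Pool.Agent.H532Z.CL

open Set Cardinal

theorem rec_choice {I Y : Type} [LinearOrder I] [WellFoundedLT I]
    (P : (α : I) → (Iio α → Y) → Y → Prop) (h : ∀ α g, ∃ y, P α g y) :
    ∃ f : I → Y, ∀ α, P α (fun ν => f ν) (f α) := by
  classical
  let f : I → Y := (wellFounded_lt (α := I)).fix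
    (fun α g => Classical.choose (h α (fun ν => g ν.1 ν.2)))
  refine ⟨f, fun α => ?_⟩
  have e : f α = Classical.choose (h α (fun ν => f ν.1)) := by
    simp only [f]
    rw [WellFounded.fix_eq]
  rw [e]
  exact Classical.choose_spec (h α (fun ν => f ν.1))

/-- the well-order of type the continuum -/
abbrev Lam : Type := (continuum.{0}).ord.ToType

/-- the well-order of type the successor of the continuum -/
abbrev K : Type := (Order.succ continuum.{0}).ord.ToType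

theorem mk_Lam : #Lam = continuum := mk_ord_toType _
theorem mk_Iio_Lam (i : Lam) : #(Iio i) < continuum := mk_Iio_toType_ord_lt i
theorem lt_mk_K : continuum < #K := by rw [mk_ord_toType]; exact Order.lt_succ _
theorem mk_Iio_K (i : K) : #(Iio i) ≤ continuum := Order.lt_succ_iff.1 (mk_Iio_toType_ord_lt i)

theorem mk_Iic_K (i : K) : #(Iic i) ≤ continuum := by
  rw [← Iio_insert]
  refine mk_insert_le.trans ?_
  exact add_le_of_le aleph0_le_continuum (mk_Iio_K i) (one_le_aleph0.trans aleph0_le_continuum)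

theorem bdd {ι : Type} (hι : #ι ≤ continuum) (f : ι → K) : ∃ δ, ∀ i, f i < δ := by
  by_contra h
  push Not at h
  have h1 : (univ : Set K) ⊆ ⋃ i, Iic (f i) := fun δ _ => by
    obtain ⟨i, hi⟩ := h δ
    exact mem_iUnion.2 ⟨i, hi⟩
  have h2 : #(⋃ i, Iic (f i)) ≤ continuum := by
    refine (mk_iUnion_le _).trans ?_
    refine mul_le_of_le aleph0_le_continuum hι ?_
    exact ciSup_le' fun i => mk_Iic_K _
  have := (mk_le_mk_of_subset h1).trans h2
  rw [mk_univ] at this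
  exact absurd this (not_le.2 lt_mk_K)

theorem bdd_nat (f : ℕ → K) : ∃ δ, ∀ i, f i < δ :=
  bdd (by simpa using aleph0_le_continuum) f

theorem bdd_fin {s : Set K} (hs : s.Finite) : ∃ δ, ∀ x ∈ s, x < δ := by
  obtain ⟨δ, h⟩ := bdd (ι := s) (hs.lt_aleph0.le.trans aleph0_le_continuum) (fun x => x.1)
  exact ⟨δ, fun x hx => h ⟨x, hx⟩⟩

theorem exists_gt_K (x : K) : ∃ y, x < y := by
  obtain ⟨δ, h⟩ := bdd_nat (fun _ => x)
  exact ⟨δ, h 0⟩

instance : Nonempty K := by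
  obtain ⟨δ, -⟩ := bdd_fin finite_empty
  exact ⟨δ⟩

theorem exists_ladder : ∃ C : K → Set K, (∀ β, ∀ x ∈ C β, x < β) ∧
    (∀ β α, α < β → ∃ x ∈ C β, α ≤ x) ∧
    ∀ β, ∀ x ∈ C β, #{y | y ∈ C β ∧ y < x} < continuum := by
  have h : ∀ β : K, ∃ i : K → Lam, InjOn i (Iio β) := by
    intro β
    have hne : Nonempty Lam := by
      rw [← mk_ne_zero_iff, mk_Lam]; exact continuum_ne_zero
    obtain ⟨e⟩ : Nonempty (Iio β ↪ Lam) := by
      rw [← le_def, mk_Lam]; exact mk_Iio_K β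
    refine ⟨Function.extend Subtype.val e (fun _ => Classical.arbitrary _), ?_⟩
    intro a ha b hb hab
    have h1 := Subtype.val_injective.extend_apply e (fun _ => Classical.arbitrary _) (⟨a, ha⟩ : Iio β)
    have h2 := Subtype.val_injective.extend_apply e (fun _ => Classical.arbitrary _) (⟨b, hb⟩ : Iio β)
    dsimp only at h1 h2
    rw [h1, h2] at hab
    exact congrArg Subtype.val (e.injective hab)
  choose i hi using h
  refine ⟨fun β => {α | α < β ∧ ∀ α', α' < β → i β α' < i β α → α' < α}, fun β x hx => hx.1, ?_, ?_⟩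
  · intro β α hα
    obtain ⟨_, ⟨x, hx, rfl⟩, hmin⟩ := (wellFounded_lt (α := Lam)).has_min
      (i β '' {x | α ≤ x ∧ x < β}) ⟨_, α, ⟨le_rfl, hα⟩, rfl⟩
    refine ⟨x, ⟨hx.2, fun α' h1 h2 => ?_⟩, hx.1⟩
    by_contra h3
    exact hmin _ ⟨α', ⟨hx.1.trans (not_lt.1 h3), h1⟩, rfl⟩ h2
  · intro β x hx
    refine lt_of_le_of_lt ?_ (mk_Iio_Lam (i β x))
    have key : ∀ y : {y | y ∈ {α | α < β ∧ ∀ α', α' < β → i β α' < i β α → α' < α} ∧ y < x},
        i β y.1 < i β x := by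
      rintro ⟨y, hy, hyx⟩
      rcases lt_trichotomy (i β y) (i β x) with h | h | h
      · exact h
      · exact absurd (hi β hy.1 hx.1 h) hyx.ne
      · exact absurd (hy.2 x hx.1 h) (not_lt.2 hyx.le)
    refine mk_le_of_injective (f := fun y => ⟨i β y.1, key y⟩) ?_
    intro a b hab
    exact Subtype.ext (hi β a.2.1.1 b.2.1.1 (congrArg Subtype.val hab))

theorem mk_biUnion_lt {s : Set K} (hs : s.Finite) (f : K → Set K)
    (h : ∀ x ∈ s, #(f x) < continuum) : #(⋃ x ∈ s, f x) < continuum := by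
  induction s, hs using Set.Finite.induction_on with
  | empty => simpa using continuum_pos
  | insert ha hs ih =>
    rw [biUnion_insert]
    exact (mk_union_le _ _).trans_lt (add_lt_of_lt aleph0_le_continuum (h _ (mem_insert _ _))
      (ih fun i hi => h i (mem_insert_of_mem _ hi)))

theorem ladder_gap {C : K → Set K}
    (hC : ∀ β, ∀ x ∈ C β, #{y | y ∈ C β ∧ y < x} < continuum)
    {ι : Type} (a : ι → Set K) (ha : ∀ i, (a i).Finite) (H : ∀ δ, ∃ i, ∀ x ∈ a i, δ < x) :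
    ∃ γ, ∀ δ, ∃ i, (∀ x ∈ a i, δ < x) ∧ ∀ β ∈ a i, ∀ c ∈ C β, ¬ (γ ≤ c ∧ c ≤ δ) := by
  by_contra hcon
  push Not at hcon
  choose g hg using hcon
  have block : ∀ γ0 : K, ∃ δ1 : K, ∀ i, (∀ x ∈ a i, δ1 < x) →
      ∃ β ∈ a i, continuum ≤ #(C β ∩ Icc γ0 δ1 : Set K) := by
    intro γ0
    obtain ⟨f, hf⟩ := rec_choice (I := Lam) (Y := K)
      (fun α u y => γ0 ≤ y ∧ ∀ ν, g (u ν) < y) (by
        intro α u
        obtain ⟨δ, hδ⟩ := bdd (mk_Iio_Lam α).le (fun ν => g (u ν))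
        exact ⟨max γ0 δ, le_max_left _ _, fun ν => (hδ ν).trans_le (le_max_right _ _)⟩)
    obtain ⟨δ1, hδ1⟩ := bdd mk_Lam.le (fun ν => g (f ν))
    refine ⟨δ1, fun i hi => ?_⟩
    by_contra hh
    push Not at hh
    have h1 := mk_biUnion_lt (ha i) _ hh
    have h2 : ∀ ν : Lam, ∃ c ∈ ⋃ β ∈ a i, (C β ∩ Icc γ0 δ1), f ν ≤ c ∧ c ≤ g (f ν) := by
      intro ν
      obtain ⟨β, hβ, c, hc, h3, h4⟩ := hg (f ν) i fun x hx => (hδ1 ν).trans (hi x hx)
      exact ⟨c, mem_biUnion hβ ⟨hc, (hf ν).1.trans h3, h4.trans (hδ1 ν).le⟩, h3, h4⟩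
    choose c hc h3 h4 using h2
    have h5 : StrictMono c := fun ν μ h =>
      ((h4 ν).trans_lt ((hf μ).2 ⟨ν, h⟩)).trans_le (h3 μ)
    have h6 := mk_le_of_injective (f := fun ν => (⟨c ν, hc ν⟩ : (⋃ β ∈ a i, (C β ∩ Icc γ0 δ1))))
      (fun ν μ h => h5.injective (congrArg Subtype.val h))
    rw [mk_Lam] at h6
    exact absurd h1 (not_lt.2 h6)
  choose h hh using block
  choose nx hnx using exists_gt_K
  let s : ℕ → K := fun j => Nat.rec (Classical.arbitrary K) (fun _ t => nx (max t (h t))) j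
  have hs1 : ∀ j, h (s j) < s (j + 1) := fun j => (le_max_right _ _).trans_lt (hnx _)
  have hs2 : StrictMono s := strictMono_nat_of_lt_succ fun j => (le_max_left _ _).trans_lt (hnx _)
  obtain ⟨δ, hδ⟩ := bdd_nat (fun j => h (s j))
  obtain ⟨i, hi⟩ := H δ
  choose b hb hb' using fun j => hh (s j) i fun x hx => (hδ j).trans (hi x hx)
  obtain ⟨j, j', hjj, hbb⟩ := (ha i).exists_lt_map_eq_of_forall_mem hb
  have hne : (C (b j') ∩ Icc (s j') (h (s j'))).Nonempty := by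
    rw [← Set.nonempty_coe_sort, ← mk_ne_zero_iff]
    exact (continuum_pos.trans_le (hb' j')).ne'
  obtain ⟨c, hc1, hc2⟩ := hne
  have h7 := hC _ c hc1
  refine absurd h7 (not_lt.2 ((hb' j).trans (mk_le_mk_of_subset ?_)))
  rintro y ⟨hy1, hy2⟩
  refine ⟨hbb ▸ hy1, ?_⟩
  exact (hy2.2.trans_lt (hs1 j)).trans_le ((hs2.monotone hjj).trans hc2.1)

theorem exists_rho : ∃ ρ : K → K → ℕ, ∀ (n : ℕ) (ι : Type) (a : ι → Set K),
    (∀ i, (a i).Finite) → (∀ δ, ∃ i, ∀ x ∈ a i, δ < x) →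
      ∃ i j, ∀ x ∈ a i, ∀ y ∈ a j, x < y ∧ n ≤ ρ x y := by
  classical
  obtain ⟨C, hC1, hC2, hC3⟩ := exists_ladder
  let nx : K → K → K := fun α β => Classical.epsilon (fun c => c ∈ C β ∧ α ≤ c)
  have hnx : ∀ α β, α < β → nx α β ∈ C β ∧ α ≤ nx α β := fun α β h =>
    Classical.epsilon_spec (p := fun c => c ∈ C β ∧ α ≤ c) (hC2 β α h)
  have hρ : ∀ α : K, ∃ r : K → ℕ, ∀ β, α < β → r β = r (nx α β) + 1 := by
    intro α
    obtain ⟨r, hr⟩ := rec_choice (I := K) (Y := ℕ)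
      (fun β u y => ∀ h : α < β, y = u ⟨nx α β, hC1 β _ (hnx α β h).1⟩ + 1) (by
        intro β u
        by_cases h : α < β
        · exact ⟨u ⟨nx α β, hC1 β _ (hnx α β h).1⟩ + 1, fun _ => rfl⟩
        · exact ⟨0, fun h' => absurd h' h⟩)
    exact ⟨r, hr⟩
  choose ρ hρ using hρ
  refine ⟨ρ, fun n => ?_⟩
  induction n with
  | zero =>
    intro ι a ha H
    obtain ⟨i, -⟩ := H (Classical.arbitrary K)
    obtain ⟨δ, hδ⟩ := bdd_fin (ha i)
    obtain ⟨j, hj⟩ := H δ
    exact ⟨i, j, fun x hx y hy => ⟨(hδ x hx).trans (hj y hy), Nat.zero_le _⟩⟩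
  | succ n ih =>
    intro ι a ha H
    obtain ⟨γ, hγ⟩ := ladder_gap hC3 a ha H
    choose I hI1 hI2 using hγ
    obtain ⟨δ, δ', h⟩ := ih {δ // γ ≤ δ}
      (fun δ => insert δ.1 (a (I δ.1) ∪ (fun β => nx δ.1 β) '' a (I δ.1)))
      (fun δ => ((ha _).union ((ha _).image _)).insert _) (by
        intro δ0
        obtain ⟨δ, hδ⟩ := exists_gt_K (max γ δ0)
        have h0 : δ0 < δ := (le_max_right _ _).trans_lt hδ
        refine ⟨⟨δ, (le_max_left _ _).trans hδ.le⟩, ?_⟩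
        rintro x (rfl | hx | ⟨β, hβ, rfl⟩)
        · exact h0
        · exact h0.trans (hI1 δ x hx)
        · exact h0.trans_le (hnx δ β (hI1 δ β hβ)).2)
    refine ⟨I δ.1, I δ'.1, fun x hx y hy => ?_⟩
    have hx' : x ∈ insert δ.1 (a (I δ.1) ∪ (fun β => nx δ.1 β) '' a (I δ.1)) :=
      Or.inr (Or.inl hx)
    have h1 := (h x hx' y (Or.inr (Or.inl hy))).1
    have h2 := (h x hx' δ'.1 (Or.inl rfl)).1
    have h3 := (h x hx' (nx δ'.1 y) (Or.inr (Or.inr ⟨y, hy, rfl⟩))).2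
    have h4 : γ ≤ x := δ.2.trans (hI1 _ x hx).le
    have h5 : nx x y = nx δ'.1 y := by
      simp only [nx]
      congr 1
      funext c
      apply propext
      constructor
      · rintro ⟨h6, h7⟩
        refine ⟨h6, ?_⟩
        by_contra h8
        exact hI2 _ y hy c h6 ⟨h4.trans h7, (not_le.1 h8).le⟩
      · rintro ⟨h6, h7⟩
        exact ⟨h6, h2.le.trans h7⟩
    refine ⟨h1, ?_⟩
    rw [hρ x y h1, h5]
    omega

theorem exists_type : ∃ N : K → ℕ, ∀ n δ, ∃ β, δ < β ∧ N β = n := by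
  obtain ⟨e⟩ : Nonempty (K × ℕ ≃ K) := by
    rw [← Cardinal.eq]
    simp only [mk_prod, lift_id, mk_nat]
    exact mul_eq_left (aleph0_le_continuum.trans lt_mk_K.le)
      (aleph0_le_continuum.trans lt_mk_K.le) aleph0_ne_zero
  refine ⟨fun β => (e.symm β).2, fun n δ => ?_⟩
  by_contra h
  push Not at h
  have h1 : ∀ x : K, e (x, n) ∈ Iic δ := by
    intro x
    by_contra h2
    exact h _ (not_le.1 h2) (by simp)
  have h2 := mk_le_of_injective (f := fun x => (⟨e (x, n), h1 x⟩ : Iic δ)) (by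
    intro a b hab
    have := e.injective (congrArg Subtype.val hab)
    exact congrArg Prod.fst this)
  exact absurd (h2.trans (mk_Iic_K δ)) (not_le.2 lt_mk_K)

end Pool.Agent.H532Z.CL
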