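import Pool.Agent.H532Z.CLBern

/-! A zero-dimensional first countable cellular-Lindelof space with a rank 2 diagonal and more
than continuum many points. -/

set_option autoImplicit false

namespace Pool.Agent.H532Z.CL

open Set Cardinal Filter Topology

def tr (k : ℕ) (x : Cn) : Cn := fun i => if i < k then x i else false

structure Dat where
  r : K → K → ℕ
  N : K → ℕ
  e : K → K × ℕ → Cn
  D : Set Cn
  b0 : Cn
  q : ℕ → V
  hr : ∀ (n : ℕ) (ι : Type) (a : ι → Set K), (∀ i, (a i).Finite) → (∀ δ, ∃ i, ∀ x ∈ a i, δ < x) →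
      ∃ i j, ∀ x ∈ a i, ∀ y ∈ a j, x < y ∧ n ≤ r x y
  hN : ∀ n δ, ∃ β, δ < β ∧ N β = n
  hrN : ∀ η β, N β ≤ r η β
  heD : ∀ β a, e β a ∈ D
  heinj : ∀ β (a a' : K × ℕ), a.1 < β → a'.1 < β → e β a = e β a' → a = a'
  hDQ : ∀ x ∈ D, ¬ Qz x
  hb0D : b0 ∉ D
  hb0Q : ¬ Qz b0
  hD : ∀ (J : Finset ℕ) (F : Set V), IsClosed F →
      (∀ z ∈ F, ∃ j ∈ J, z j ∈ D ∨ Qz (z j)) → Cov J F
  hqQ : ∀ m, Qz (q m 0)
  hqtr : ∀ k (z : V), ∃ m, ∀ j, j < k → q m j = tr k (z j)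

theorem nonempty_dat : Nonempty Dat := by
  classical
  obtain ⟨ρ, hρ⟩ := exists_rho
  obtain ⟨N, hN⟩ := exists_type
  obtain ⟨d, hd1, hd2, hd3⟩ := exists_bernstein
  have he : ∀ β : K, ∃ i : K × ℕ → Lam, ∀ a a' : K × ℕ, a.1 < β → a'.1 < β → i a = i a' → a = a' := by
    intro β
    have hne : Nonempty Lam := by
      rw [← mk_ne_zero_iff, mk_Lam]; exact continuum_ne_zero
    obtain ⟨e⟩ : Nonempty ((Iio β × ℕ) ↪ Lam) := by
      rw [← Cardinal.le_def, mk_Lam]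
      simp only [mk_prod, lift_id, mk_nat]
      exact mul_le_of_le aleph0_le_continuum (mk_Iio_K β) aleph0_le_continuum
    refine ⟨fun a => if h : a.1 < β then e (⟨a.1, h⟩, a.2) else Classical.arbitrary _, ?_⟩
    intro a a' h h' hh
    simp only [h, h', dif_pos] at hh
    have := e.injective hh
    simp only [Prod.mk.injEq, Subtype.mk.injEq] at this
    exact Prod.ext this.1 this.2
  choose i hi using he
  obtain ⟨b0, hb0⟩ : ∃ b0 : Cn, b0 ∉ range d ∧ ¬ Qz b0 := by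
    by_contra h
    push Not at h
    obtain ⟨E, hE, hE'⟩ := hd3 {0} Set.univ isClosed_univ (fun z _ => ⟨0, by simp, by
      by_cases h1 : z 0 ∈ range d
      · exact Or.inl h1
      · exact Or.inr (h _ h1)⟩)
    have h2 : E = Set.univ := eq_univ_of_forall fun x => by
      obtain ⟨j, -, hj⟩ := hE' (fun _ => x) (mem_univ _)
      exact hj
    rw [h2] at hE
    have h3 := hE.le_aleph0
    rw [mk_univ, mk_Cn] at h3
    exact absurd h3 (not_le.2 aleph0_lt_continuum)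
  obtain ⟨s, hs⟩ := exists_surjective_nat (Finset (ℕ × ℕ))
  refine ⟨⟨fun η β => ρ η β + N β, N, fun β a => d (i β a), range d, b0,
    fun m j x => decide ((j, x) ∈ s m), ?_, hN, fun _ _ => Nat.le_add_left _ _,
    fun _ _ => mem_range_self _, fun β a a' h h' hh => hi β a a' h h' (hd1 hh),
    by rintro _ ⟨α, rfl⟩; exact hd2 α, hb0.1, hb0.2, hd3, ?_, ?_⟩⟩
  · intro n ι a ha H
    obtain ⟨i, j, h⟩ := hρ n ι a ha H
    exact ⟨i, j, fun x hx y hy => ⟨(h x hx y hy).1, (h x hx y hy).2.trans (Nat.le_add_right _ _)⟩⟩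
  · intro m
    refine ⟨(s m).sup Prod.snd + 1, fun x hx => ?_⟩
    rw [decide_eq_false_iff_not]
    intro h
    have := Finset.le_sup (f := Prod.snd) h
    dsimp only at this
    omega
  · intro k z
    obtain ⟨m, hm⟩ := hs ((Finset.range k ×ˢ Finset.range k).filter (fun p => z p.1 p.2 = true))
    refine ⟨m, fun j hj => ?_⟩
    funext x
    rw [hm]
    by_cases hx : x < k
    · cases h : z j x <;> simp [tr, hj, hx, h]
    · simp [tr, hx]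

theorem ev_not_agree {z w : V} (h : z ≠ w) : ∀ᶠ k in atTop, ¬ agree k z w := by
  obtain ⟨j, hj⟩ := Function.ne_iff.1 h
  obtain ⟨i, hi⟩ := Function.ne_iff.1 hj
  filter_upwards [eventually_gt_atTop j, eventually_gt_atTop i] with n h1 h2 h3
  exact hi (h3 j h1 i h2)

theorem ev_tr {z : V} {j : ℕ} {x : Cn} (h : z j ≠ x) (hq : ¬ Qz (z j)) :
    ∀ᶠ k in atTop, ∀ w, agree k w z → w j ≠ x ∧ ∀ i, w j ≠ tr i x := by
  obtain ⟨i0, hi0⟩ := Function.ne_iff.1 h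
  obtain ⟨i1, hi1, hi1'⟩ : ∃ i1, i0 ≤ i1 ∧ z j i1 ≠ false := by
    by_contra hh
    push Not at hh
    exact hq ⟨i0, hh⟩
  filter_upwards [eventually_gt_atTop j, eventually_gt_atTop i1] with n h1 h2 w hw
  have e0 := hw j h1 i0 (by omega)
  have e1 := hw j h1 i1 h2
  refine ⟨fun h3 => hi0 (by rw [← e0, h3]), fun i h3 => ?_⟩
  rw [h3] at e0 e1
  by_cases h4 : i1 < i
  · have h5 : i0 < i := by omega
    simp only [tr, h5, if_true] at e0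
    exact hi0 e0.symm
  · simp only [tr, h4, if_false] at e1
    exact hi1' e1.symm

namespace Dat

variable (c : Dat)

def Kset (η β : K) (w : V) : Prop :=
  (∃ m, m ≤ c.r η β ∧ w = c.q m) ∨
    ∃ j, j < c.N β ∧ ∃ m, m ≤ c.r η β ∧ ∃ i, w j = tr i (c.e β (η, m))

def Cons (p : Set (K × ℕ)) : Prop :=
  ∀ a ∈ p, ∀ b ∈ p, (a.1 = b.1 → a.2 = b.2) ∧
    (a.1 < b.1 → a.2 ≤ c.r a.1 b.1 ∧ c.Kset a.1 b.1 (c.q b.2))

def cd (β : K) (z : V) : Set (K × ℕ) := {a | a.1 < β ∧ ∃ j, j < c.N β ∧ z j = c.e β a}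

def Own (β : K) (z : V) : Prop :=
  (∀ j, ¬ Qz (z j)) ∧ (∀ j, c.N β ≤ j → z j = c.b0) ∧ c.Cons (c.cd β z) ∧
    ∀ a ∈ c.cd β z, a.2 ≤ c.r a.1 β

structure X where
  β : K
  z : V
  own : c.Own β z

variable {c}

theorem Cons.mono {p p' : Set (K × ℕ)} (h : c.Cons p) (hp : p' ⊆ p) : c.Cons p' :=
  fun a ha b hb => h a (hp ha) b (hp hb)

def X.cd (y : c.X) : Set (K × ℕ) := c.cd y.β y.z

theorem X.finite_cd (y : c.X) : y.cd.Finite := by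
  refine Set.Finite.of_finite_image (f := c.e y.β) (((finite_Iio (c.N y.β)).image y.z).subset ?_) ?_
  · rintro _ ⟨a, ⟨-, j, hj, h⟩, rfl⟩
    exact ⟨j, hj, h⟩
  · intro a ha b hb h
    exact c.heinj _ _ _ ha.1 hb.1 h

theorem X.cons (y : c.X) : c.Cons y.cd := y.own.2.2.1

def Val (y : c.X) (β : K) (w : V) : Prop :=
  (y.β = β ∧ w = y.z) ∨ ∃ m, (β, m) ∈ y.cd ∧ w = c.q m

theorem Val.unique {y : c.X} {β : K} {w w' : V} (h : Val y β w) (h' : Val y β w') : w = w' := by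
  rcases h with ⟨h1, h2⟩ | ⟨m, h1, h2⟩ <;> rcases h' with ⟨h3, h4⟩ | ⟨m', h3, h4⟩
  · rw [h2, h4]
  · exact absurd h3.1 (by rw [h1]; exact lt_irrefl _)
  · exact absurd h1.1 (by rw [h3]; exact lt_irrefl _)
  · have := (y.cons _ h1 _ h3).1 rfl
    dsimp only at this
    rw [h2, h4, this]

theorem Val.le {y : c.X} {β : K} {w : V} (h : Val y β w) : β ≤ y.β := by
  rcases h with ⟨h1, -⟩ | ⟨m, h1, -⟩
  · exact h1.ge
  · exact h1.1.le

/-- the set of points with value close to that of `y` -/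
def St (k : ℕ) (y : c.X) : Set c.X := {y' | ∃ w, Val y' y.β w ∧ agree k w y.z}

def Nb (k : ℕ) (y : c.X) : Set c.X := {y' | y.cd ⊆ y'.cd ∧ y' ∈ St k y}

theorem mem_Nb (k : ℕ) (y : c.X) : y ∈ Nb k y :=
  ⟨subset_rfl, y.z, Or.inl ⟨rfl, rfl⟩, agree.refl _ _⟩

theorem St_mono {k k' : ℕ} (h : k ≤ k') (y : c.X) : St k' y ⊆ St k y := by
  rintro y' ⟨w, h2, h3⟩
  exact ⟨w, h2, h3.mono h⟩

theorem Nb_mono {k k' : ℕ} (h : k ≤ k') (y : c.X) : Nb k' y ⊆ Nb k y := by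
  rintro y' ⟨h1, h2⟩
  exact ⟨h1, St_mono h y h2⟩

theorem Nb_sub {k : ℕ} {y y' : c.X} (h : y' ∈ Nb k y) : Nb k y' ⊆ Nb k y := by
  obtain ⟨h1, w, h2, h3⟩ := h
  rintro y'' ⟨h4, w', h5, h6⟩
  refine ⟨h1.trans h4, ?_⟩
  rcases h2 with ⟨h7, h8⟩ | ⟨m, h7, h8⟩
  · exact ⟨w', h7 ▸ h5, h6.trans (h8 ▸ h3)⟩
  · exact ⟨w, Or.inr ⟨m, h4 h7, h8⟩, h3⟩

instance : TopologicalSpace c.X where
  IsOpen U := ∀ y ∈ U, ∃ k, Nb k y ⊆ U
  isOpen_univ := fun _ _ => ⟨0, subset_univ _⟩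
  isOpen_inter := by
    intro s t hs ht y hy
    obtain ⟨k, hk⟩ := hs y hy.1
    obtain ⟨k', hk'⟩ := ht y hy.2
    exact ⟨max k k', subset_inter ((Nb_mono (le_max_left _ _) y).trans hk)
      ((Nb_mono (le_max_right _ _) y).trans hk')⟩
  isOpen_sUnion := by
    rintro s hs y ⟨t, ht, hy⟩
    obtain ⟨k, hk⟩ := hs t ht y hy
    exact ⟨k, hk.trans (subset_sUnion_of_mem ht)⟩

theorem isOpen_iff {U : Set c.X} : IsOpen U ↔ ∀ y ∈ U, ∃ k, Nb k y ⊆ U := Iff.rfl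

theorem isOpen_Nb (k : ℕ) (y : c.X) : IsOpen (Nb k y) := fun _ h => ⟨k, Nb_sub h⟩

theorem hasBasis (y : c.X) : (𝓝 y).HasBasis (fun _ => True) (fun k => Nb k y) := by
  refine ⟨fun t => ⟨fun h => ?_, ?_⟩⟩
  · obtain ⟨U, hU, hUo, hy⟩ := mem_nhds_iff.1 h
    obtain ⟨k, hk⟩ := hUo y hy
    exact ⟨k, trivial, hk.trans hU⟩
  · rintro ⟨k, -, hk⟩
    exact mem_of_superset ((isOpen_Nb k y).mem_nhds (mem_Nb k y)) hk

theorem ev_q (y : c.X) (n : ℕ) : ∀ᶠ k in atTop, ∀ m, m ≤ n → ¬ agree k (c.q m) y.z := by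
  have := (eventually_all_finite (finite_Iic n) (l := atTop)
    (p := fun m k => ¬ agree k (c.q m) y.z)).2 fun m _ => ev_not_agree fun h => by
      have h1 := c.hqQ m
      rw [h] at h1
      exact y.own.1 0 h1
  exact this

theorem sep_up (y : c.X) {η : K} (h : y.β < η) :
    ∀ᶠ k in atTop, ∀ y' ∈ St k y, ∀ w, ¬ Val y' η w := by
  filter_upwards [ev_q y (c.r y.β η)] with k hk
  rintro y' ⟨w, h1, h2⟩ w' h3
  rcases h1 with ⟨h4, -⟩ | ⟨m, h4, rfl⟩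
  · exact absurd h3.le (not_le.2 (h4 ▸ h))
  · refine hk m ?_ h2
    rcases h3 with ⟨h5, -⟩ | ⟨m', h5, -⟩
    · have := y'.own.2.2.2 _ h4
      rwa [h5] at this
    · exact ((y'.cons _ h4 _ h5).2 h).1

theorem sep_down (y : c.X) {η : K} (h : η < y.β) (hη : ∀ m, (η, m) ∉ y.cd) :
    ∀ᶠ k in atTop, ∀ y' ∈ St k y, ∀ w, ¬ Val y' η w := by
  have h1 := (eventually_all_finite ((finite_Iio (c.N y.β)).prod (finite_Iic (c.r η y.β)))
    (l := atTop) (p := fun s k => ∀ w, agree k w y.z →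
      w s.1 ≠ c.e y.β (η, s.2) ∧ ∀ i, w s.1 ≠ tr i (c.e y.β (η, s.2)))).2 fun s hs =>
        ev_tr (fun hh => hη s.2 ⟨h, s.1, hs.1, hh⟩) (y.own.1 _)
  filter_upwards [ev_q y (c.r η y.β), h1] with k hk hk'
  rintro y' ⟨w, h1, h2⟩ w' h3
  rcases h3 with ⟨h5, -⟩ | ⟨m', h5, -⟩
  · exact absurd h1.le (not_le.2 (h5 ▸ h))
  rcases h1 with ⟨h4, rfl⟩ | ⟨m, h4, rfl⟩
  · have h6 := y'.own.2.2.2 _ h5
    obtain ⟨-, j, h7, h8⟩ := h5
    rw [h4] at h6 h7 h8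
    exact (hk' (j, m') ⟨h7, h6⟩ _ h2).1 h8
  · rcases ((y'.cons _ h5 _ h4).2 h).2 with ⟨m'', h6, h7⟩ | ⟨j, h6, m'', h7, i, h8⟩
    · dsimp only at h6 h7
      exact hk m'' h6 (h7 ▸ h2)
    · exact (hk' (j, m'') ⟨h6, h7⟩ _ h2).2 i h8

theorem sepB (y : c.X) {η : K} (h : y.β ≠ η) (hη : ∀ m, (η, m) ∉ y.cd) :
    ∃ k, ∀ y' ∈ Nb k y, ∀ w, ¬ Val y' η w := by
  rcases lt_or_gt_of_ne h with h | h
  · obtain ⟨k, hk⟩ := (sep_up y h).exists
    exact ⟨k, fun y' hy' => hk y' hy'.2⟩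
  · obtain ⟨k, hk⟩ := (sep_down y h hη).exists
    exact ⟨k, fun y' hy' => hk y' hy'.2⟩

theorem sepA (y : c.X) {a : K × ℕ} (h : a ∉ y.cd) : ∃ k, ∀ y' ∈ Nb k y, a ∉ y'.cd := by
  obtain ⟨η, m⟩ := a
  by_cases h1 : y.β = η
  · obtain ⟨k, hk⟩ := (ev_q y m).exists
    refine ⟨k, ?_⟩
    rintro y' ⟨-, w, h2, h3⟩ h4
    have := h2.unique (Or.inr ⟨m, h1 ▸ h4, rfl⟩)
    exact hk m le_rfl (this ▸ h3)
  · by_cases h2 : ∃ m', (η, m') ∈ y.cd
    · obtain ⟨m', h2⟩ := h2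
      refine ⟨0, fun y' hy' h3 => ?_⟩
      have := (y'.cons _ h3 _ (hy'.1 h2)).1 rfl
      dsimp only at this
      exact h (this ▸ h2)
    · push Not at h2
      obtain ⟨k, hk⟩ := sepB y h1 h2
      exact ⟨k, fun y' hy' h3 => hk y' hy' _ (Or.inr ⟨m, h3, rfl⟩)⟩

theorem isClosed_Nb (k : ℕ) (y : c.X) : IsClosed (Nb k y) := by
  rw [← isOpen_compl_iff, isOpen_iff]
  intro y' hy'
  by_cases h1 : y.cd ⊆ y'.cd
  swap
  · obtain ⟨a, ha, ha'⟩ := not_subset.1 h1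
    obtain ⟨k', hk'⟩ := sepA y' ha'
    exact ⟨k', fun y'' h2 h3 => hk' y'' h2 (h3.1 ha)⟩
  by_cases h2 : y'.β = y.β
  · refine ⟨k, ?_⟩
    rintro y'' ⟨-, w, h3, h4⟩ ⟨-, w', h5, h6⟩
    rw [h2] at h3
    rw [h3.unique h5] at h4
    exact hy' ⟨h1, y'.z, Or.inl ⟨h2, rfl⟩, h4.symm.trans h6⟩
  by_cases h3 : ∃ m, (y.β, m) ∈ y'.cd
  · obtain ⟨m, h3⟩ := h3
    refine ⟨0, ?_⟩
    rintro y'' ⟨h4, -⟩ ⟨-, w', h5, h6⟩
    rw [h5.unique (Or.inr ⟨m, h4 h3, rfl⟩)] at h6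
    exact hy' ⟨h1, _, Or.inr ⟨m, h3, rfl⟩, h6⟩
  · push Not at h3
    obtain ⟨k', hk'⟩ := sepB y' h2 h3
    refine ⟨k', ?_⟩
    rintro y'' h4 ⟨-, w', h5, -⟩
    exact hk' y'' h4 w' h5

theorem regularSpace : RegularSpace c.X :=
  RegularSpace.of_hasBasis hasBasis fun y k _ => isClosed_Nb k y

theorem firstCountable : FirstCountableTopology c.X :=
  ⟨fun y => (hasBasis y).isCountablyGenerated⟩

theorem sep_St {y y' : c.X} (h : y ≠ y') : ∀ᶠ k in atTop, Disjoint (St k y) (St k y') := by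
  rcases lt_trichotomy y.β y'.β with h1 | h1 | h1
  · filter_upwards [sep_up y h1] with k hk
    rw [Set.disjoint_left]
    rintro x hx ⟨w, h2, -⟩
    exact hk x hx w h2
  · have h2 : y.z ≠ y'.z := by
      intro h2
      apply h
      obtain ⟨β, z, o⟩ := y
      obtain ⟨β', z', o'⟩ := y'
      dsimp only at h1 h2
      subst h1 h2
      rfl
    filter_upwards [ev_not_agree h2] with k hk
    rw [Set.disjoint_left]
    rintro x ⟨w, h3, h4⟩ ⟨w', h5, h6⟩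
    rw [h1] at h3
    rw [h3.unique h5] at h4
    exact hk (h4.symm.trans h6)
  · filter_upwards [sep_up y' h1] with k hk
    rw [Set.disjoint_right]
    rintro x hx ⟨w, h2, -⟩
    exact hk x hx w h2

theorem t0Space : T0Space c.X := by
  refine (t0Space_iff_exists_isOpen_xor_mem _).2 fun y y' h => ?_
  obtain ⟨k, hk⟩ := (sep_St h).exists
  exact ⟨Nb k y, isOpen_Nb k y, Or.inl ⟨mem_Nb k y,
    fun h1 => Set.disjoint_left.1 hk h1.2 (mem_Nb k y').2⟩⟩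

theorem rank2 : ∃ 𝒰 : ℕ → Set (Set c.X),
    (∀ n, ∀ V ∈ 𝒰 n, IsOpen V) ∧ (∀ n, ⋃₀ 𝒰 n = Set.univ) ∧
    ∀ x y : c.X, x ≠ y → ∃ n, ¬ ∃ V ∈ 𝒰 n, ∃ W ∈ 𝒰 n, x ∈ V ∧ (V ∩ W).Nonempty ∧ y ∈ W := by
  have h : ∀ (n : ℕ) (x : c.X), ∃ k, n ≤ k ∧ ∀ m, m ≤ n → ¬ agree k (c.q m) x.z := fun n x =>
    ((eventually_ge_atTop n).and (ev_q x n)).exists
  choose j hj1 hj2 using h
  refine ⟨fun n => range (fun x => Nb (j n x) x), ?_, ?_, ?_⟩
  · rintro n _ ⟨x, rfl⟩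
    exact isOpen_Nb _ _
  · intro n
    exact eq_univ_of_forall fun x => ⟨_, ⟨x, rfl⟩, mem_Nb _ _⟩
  · have key : ∀ y : c.X, ∀ᶠ n in atTop, ∀ x, y ∈ Nb (j n x) x → Nb (j n x) x ⊆ St n y := by
      intro y
      obtain ⟨n0, hn0⟩ := (y.finite_cd.image Prod.snd).bddAbove
      filter_upwards [eventually_ge_atTop n0] with n hn
      rintro x ⟨-, w, h1, h2⟩
      rcases h1 with ⟨h3, rfl⟩ | ⟨m, h3, rfl⟩
      · rintro u ⟨-, w', h4, h5⟩
        exact ⟨w', h3 ▸ h4, (h5.trans h2.symm).mono (hj1 n x)⟩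
      · exact absurd h2 (hj2 n x m ((hn0 ⟨_, h3, rfl⟩).trans hn))
    intro x y hxy
    obtain ⟨n, h1, h2, h3⟩ := ((key x).and ((key y).and (sep_St hxy))).exists
    refine ⟨n, ?_⟩
    rintro ⟨_, ⟨u, rfl⟩, _, ⟨v, rfl⟩, h4, ⟨p, h5, h6⟩, h7⟩
    exact Set.disjoint_left.1 h3 (h1 u h4 h5) (h2 v h7 h6)

theorem lt_mk_X : continuum < #c.X := by
  have h : ∀ β, c.Own β (fun _ => c.b0) := by
    intro β
    have h1 : c.cd β (fun _ => c.b0) = ∅ := by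
      ext a
      refine ⟨?_, fun h => h.elim⟩
      rintro ⟨-, j, -, h⟩
      have h' : c.b0 = c.e β a := h
      exact c.hb0D (h' ▸ c.heD β a)
    refine ⟨fun _ => c.hb0Q, fun _ _ => rfl, ?_, ?_⟩
    · rw [h1]; intro a ha; exact ha.elim
    · rw [h1]; intro a ha; exact ha.elim
  refine lt_mk_K.trans_le (mk_le_of_injective (f := fun β => (⟨β, _, h β⟩ : c.X)) ?_)
  intro a b hab
  exact congrArg X.β hab

theorem isLindelof_fiber (β : K) : IsLindelof {y : c.X | y.β = β} := by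
  classical
  refine isLindelof_of_countable_subcover fun {ι} U hU hcov => ?_
  have h1 : ∀ t : V, ∃ k : ℕ, ∀ h : c.Own β t, ∃ i, Nb k ⟨β, t, h⟩ ⊆ U i := by
    intro t
    by_cases h : c.Own β t
    · obtain ⟨i, hi⟩ := mem_iUnion.1 (hcov (show (⟨β, t, h⟩ : c.X) ∈ _ from rfl))
      obtain ⟨k, hk⟩ := hU i _ hi
      exact ⟨k, fun _ => ⟨i, hk⟩⟩
    · exact ⟨0, fun h' => absurd h' h⟩
  choose k f hf using h1
  obtain ⟨T, hT1, hT2, hT3⟩ := lindelof_comb c.hD k (Finset.range (c.N β)) (fun _ => c.b0)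
  have : Countable {t : V // t ∈ T ∧ c.Own β t} :=
    (hT1.mono (show {t | t ∈ T ∧ c.Own β t} ⊆ T from fun _ h => h.1)).to_subtype
  refine ⟨range (fun t : {t : V // t ∈ T ∧ c.Own β t} => f t.1 t.2.2), countable_range _, ?_⟩
  rintro ⟨_, z, hz⟩ rfl
  rename_i β
  obtain ⟨t, ht, h2, h3⟩ := hT3 z (fun j _ => hz.1 j) (fun j hj => hz.2.1 j (by simpa using hj))
  have hsub : c.cd β t ⊆ c.cd β z := by
    rintro a ⟨h4, j, h5, h6⟩
    exact ⟨h4, j, h5, (h3 j (h6 ▸ c.heD β a)).trans h6⟩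
  have hown : c.Own β t := by
    refine ⟨fun j => ?_, fun j hj => (hT2 t ht).2 j (by simpa using hj), hz.2.2.1.mono hsub,
      fun a ha => hz.2.2.2 a (hsub ha)⟩
    by_cases hj : j ∈ Finset.range (c.N β)
    · exact (hT2 t ht).1 j hj
    · rw [(hT2 t ht).2 j hj]; exact c.hb0Q
  refine mem_iUnion₂.2 ⟨f t hown, ⟨⟨t, ht, hown⟩, rfl⟩, hf t hown ⟨hsub, z, Or.inl ⟨rfl, rfl⟩, h2⟩⟩

theorem exists_point {p : Set (K × ℕ)} (hp : p.Finite) (hc : c.Cons p) :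
    ∃ n0, ∀ β, n0 = c.N β → (∀ a ∈ p, a.1 < β) → ∃ y : c.X, y.β = β ∧ p ⊆ y.cd := by
  classical
  obtain ⟨n, f, -, rfl⟩ := hp.fin_param
  obtain ⟨n1, hn1⟩ := (hp.image Prod.snd).bddAbove
  refine ⟨max n n1, fun β hβ hlt => ?_⟩
  let z : V := fun j => if h : j < n then c.e β (f ⟨j, h⟩) else c.b0
  have h1 : c.cd β z = range f := by
    ext a
    constructor
    · rintro ⟨h2, j, -, h3⟩
      by_cases h : j < n
      · simp only [z, h, dif_pos] at h3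
        exact ⟨_, c.heinj β _ _ (hlt _ (mem_range_self _)) h2 h3⟩
      · simp only [z, h, dif_neg, not_false_iff] at h3
        exact absurd (h3 ▸ c.heD β a) c.hb0D
    · rintro ⟨i, rfl⟩
      refine ⟨hlt _ (mem_range_self _), i.1, hβ ▸ i.2.trans_le (le_max_left _ _), ?_⟩
      simp [z]
  refine ⟨⟨β, z, fun j => ?_, fun j hj => ?_, h1 ▸ hc, ?_⟩, rfl, h1.ge⟩
  · by_cases h : j < n
    · simp only [z, h, dif_pos]
      exact c.hDQ _ (c.heD _ _)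
    · simp only [z, h, dif_neg, not_false_iff]
      exact c.hb0Q
  · have h : ¬ j < n := by
      have := le_max_left n n1
      omega
    simp only [z, h, dif_neg, not_false_iff]
  · rw [h1]
    intro a ha
    exact ((hn1 ⟨a, ha, rfl⟩).trans ((le_max_right n n1).trans hβ.le)).trans (c.hrN _ _)

theorem exists_cond (k : ℕ) (y : c.X) : ∃ p : Set (K × ℕ), p.Finite ∧ c.Cons p ∧
    ∀ y' : c.X, p ⊆ y'.cd → y' ∈ Nb k y := by
  obtain ⟨m, hm⟩ := c.hqtr (max k (c.N y.β)) y.z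
  refine ⟨insert (y.β, m) y.cd, y.finite_cd.insert _, ?_, ?_⟩
  · rintro a (rfl | ha) b (rfl | hb)
    · exact ⟨fun _ => rfl, fun h => absurd h (lt_irrefl _)⟩
    · exact ⟨fun h => absurd hb.1 (by rw [← h]; exact lt_irrefl _),
        fun h => absurd (h.trans hb.1) (lt_irrefl _)⟩
    · refine ⟨fun h => absurd ha.1 (by rw [h]; exact lt_irrefl _), fun _ => ?_⟩
      have h1 := y.own.2.2.2 a ha
      obtain ⟨-, j, h2, h3⟩ := ha
      refine ⟨h1, Or.inr ⟨j, h2, a.2, h1, max k (c.N y.β), ?_⟩⟩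
      dsimp only
      rw [hm j (h2.trans_le (le_max_right _ _)), h3]
    · exact y.cons a ha b hb
  · intro y' h
    refine ⟨(subset_insert _ _).trans h, c.q m, Or.inr ⟨m, h (mem_insert _ _), rfl⟩, ?_⟩
    intro j hj i hi
    rw [hm j (hj.trans_le (le_max_left _ _))]
    simp [tr, hi]

theorem antichain_bdd (A : Set (Set (K × ℕ))) (h1 : ∀ p ∈ A, p.Finite ∧ c.Cons p)
    (h2 : ∀ p ∈ A, ∀ p' ∈ A, c.Cons (p ∪ p') → p = p') : ∃ δ, ∀ p ∈ A, ∀ a ∈ p, a.1 < δ := by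
  classical
  have hg : ∀ (r : Set (K × ℕ)) (n : ℕ), ∃ g : K, ∀ p ∈ A, (∀ a ∈ p, a.2 ≤ n) → r ⊆ p →
      (∀ a ∈ p \ r, g < a.1) → p ⊆ r := by
    intro r n
    by_contra hcon
    push Not at hcon
    obtain ⟨p, p', h⟩ := c.hr n {p // p ∈ A ∧ (∀ a ∈ p, a.2 ≤ n) ∧ r ⊆ p ∧ ¬ p ⊆ r}
      (fun p => Prod.fst '' (p.1 \ r)) (fun p => ((h1 _ p.2.1).1.subset sdiff_subset).image _) (by
        intro δ
        obtain ⟨p, h3, h4, h5, h6, h7⟩ := hcon δ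
        refine ⟨⟨p, h3, h4, h5, h7⟩, ?_⟩
        rintro _ ⟨a, ha, rfl⟩
        exact h6 a ha)
    obtain ⟨p, hp1, hp2, hp3, hp4⟩ := p
    obtain ⟨p', hp1', hp2', hp3', hp4'⟩ := p'
    dsimp only at h
    have hc : c.Cons (p ∪ p') := by
      intro a ha b hb
      by_cases h3 : a ∈ p ∧ b ∈ p
      · exact (h1 p hp1).2 a h3.1 b h3.2
      by_cases h4 : a ∈ p' ∧ b ∈ p'
      · exact (h1 p' hp1').2 a h4.1 b h4.2
      rcases ha with ha | ha <;> rcases hb with hb | hb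
      · exact absurd ⟨ha, hb⟩ h3
      · obtain ⟨h5, h6⟩ := h a.1 ⟨a, ⟨ha, fun h => h4 ⟨hp3' h, hb⟩⟩, rfl⟩
          b.1 ⟨b, ⟨hb, fun h => h3 ⟨ha, hp3 h⟩⟩, rfl⟩
        exact ⟨fun h => absurd h h5.ne, fun _ => ⟨(hp2 a ha).trans h6,
          Or.inl ⟨b.2, (hp2' b hb).trans h6, rfl⟩⟩⟩
      · obtain ⟨h5, -⟩ := h b.1 ⟨b, ⟨hb, fun h => h4 ⟨ha, hp3' h⟩⟩, rfl⟩
          a.1 ⟨a, ⟨ha, fun h => h3 ⟨hp3 h, hb⟩⟩, rfl⟩
        exact ⟨fun h => absurd h h5.ne', fun h => absurd (h.trans h5) (lt_irrefl _)⟩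
      · exact absurd ⟨ha, hb⟩ h4
    have e := h2 p hp1 p' hp1' hc
    subst e
    obtain ⟨a, ha, ha'⟩ := not_subset.1 hp4
    exact lt_irrefl _ (h a.1 ⟨a, ⟨ha, ha'⟩, rfl⟩ a.1 ⟨a, ⟨ha, ha'⟩, rfl⟩).1
  choose g hg using hg
  have hstep : ∀ δ : K, ∃ δ' : K, δ ≤ δ' ∧ ∀ r : Set (K × ℕ), r.Finite → (∀ a ∈ r, a.1 < δ) →
      ∀ n, g r n < δ' := by
    intro δ
    have h3 : #(List (Iio δ × ℕ) × ℕ) ≤ continuum := by
      simp only [mk_prod, lift_id, mk_nat]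
      refine mul_le_of_le aleph0_le_continuum ((mk_list_le_max _).trans
        (max_le aleph0_le_continuum ?_)) aleph0_le_continuum
      simp only [mk_prod, lift_id, mk_nat]
      exact mul_le_of_le aleph0_le_continuum (mk_Iio_K δ) aleph0_le_continuum
    obtain ⟨δ', hδ'⟩ := bdd h3 (fun s => g {a | ∃ b ∈ s.1, a = (b.1.1, b.2)} s.2)
    refine ⟨max δ δ', le_max_left _ _, fun r hr hrδ n => ?_⟩
    refine lt_of_lt_of_le ?_ (le_max_right _ _)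
    have h4 := hδ' (hr.toFinset.attach.toList.map
      (fun a => (⟨a.1.1, hrδ a.1 (hr.mem_toFinset.1 a.2)⟩, a.1.2)), n)
    convert h4 using 2
    ext a
    simp only [List.mem_map, Finset.mem_toList, Finset.mem_attach, true_and, mem_ofPred_eq]
    constructor
    · intro ha
      exact ⟨_, ⟨⟨a, hr.mem_toFinset.2 ha⟩, rfl⟩, rfl⟩
    · rintro ⟨_, ⟨b, rfl⟩, rfl⟩
      exact hr.mem_toFinset.1 b.2
  choose nx hnx1 hnx2 using hstep
  let s : ℕ → K := fun j => Nat.rec (Classical.arbitrary K) (fun _ t => nx t) j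
  have hs : Monotone s := monotone_nat_of_le_succ fun j => hnx1 _
  obtain ⟨δ, hδ⟩ := bdd_nat s
  refine ⟨δ, fun p hp => ?_⟩
  obtain ⟨n, hn⟩ := ((h1 p hp).1.image Prod.snd).bddAbove
  let r : Set (K × ℕ) := {a | a ∈ p ∧ ∃ j, a.1 < s j}
  have hr : r.Finite := (h1 p hp).1.subset fun a ha => ha.1
  obtain ⟨j, hj⟩ : ∃ j, ∀ a ∈ r, a.1 < s j := by
    have := (eventually_all_finite hr (l := atTop) (p := fun a j => a.1 < s j)).2 (by
      rintro a ⟨-, j, hj⟩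
      filter_upwards [eventually_ge_atTop j] with i hi
      exact hj.trans_le (hs hi))
    exact this.exists
  have h3 := hg r n p hp (fun a ha => hn ⟨a, ha, rfl⟩) (fun a ha => ha.1) (by
    intro a ha
    refine (hnx2 (s j) r hr hj n).trans_le ?_
    by_contra h4
    exact ha.2 ⟨ha.1, j + 1, not_le.1 h4⟩)
  intro a ha
  exact (hj a (h3 ha)).trans (hδ j)

theorem cellularLindelof (𝒰 : Set (Set c.X)) (h1 : ∀ U ∈ 𝒰, IsOpen U ∧ U.Nonempty)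
    (h2 : 𝒰.PairwiseDisjoint id) :
    ∃ L : Set c.X, IsLindelof L ∧ ∀ U ∈ 𝒰, (L ∩ U).Nonempty := by
  have h3 : ∀ U ∈ 𝒰, ∃ p : Set (K × ℕ), p.Finite ∧ c.Cons p ∧ ∀ y' : c.X, p ⊆ y'.cd → y' ∈ U := by
    intro U hU
    obtain ⟨y, hy⟩ := (h1 U hU).2
    obtain ⟨k, hk⟩ := (h1 U hU).1 y hy
    obtain ⟨p, h4, h5, h6⟩ := exists_cond k y
    exact ⟨p, h4, h5, fun y' h => hk (h6 y' h)⟩
  choose! P hP1 hP2 hP3 using h3
  obtain ⟨δ, hδ⟩ := antichain_bdd (c := c) (P '' 𝒰) (by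
    rintro _ ⟨U, hU, rfl⟩
    exact ⟨hP1 U hU, hP2 U hU⟩) (by
    rintro _ ⟨U, hU, rfl⟩ _ ⟨U', hU', rfl⟩ hc
    by_contra hne
    have hUU : U ≠ U' := fun h => hne (h ▸ rfl)
    have hfin := (hP1 U hU).union (hP1 U' hU')
    obtain ⟨n0, hn0⟩ := exists_point hfin hc
    obtain ⟨δ, hδ⟩ := bdd_fin (hfin.image Prod.fst)
    obtain ⟨β, hβ, hβ'⟩ := c.hN n0 δ
    obtain ⟨y, -, hy⟩ := hn0 β hβ'.symm fun a ha => (hδ _ ⟨a, ha, rfl⟩).trans hβ
    exact Set.disjoint_left.1 (h2 hU hU' hUU) (hP3 U hU y (subset_union_left.trans hy))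
      (hP3 U' hU' y (subset_union_right.trans hy)))
  choose β hβ1 hβ2 using fun n => c.hN n δ
  refine ⟨⋃ n, {y : c.X | y.β = β n}, isLindelof_iUnion fun n => isLindelof_fiber _, fun U hU => ?_⟩
  obtain ⟨n0, hn0⟩ := exists_point (hP1 U hU) (hP2 U hU)
  obtain ⟨y, hy1, hy2⟩ := hn0 (β n0) (hβ2 n0).symm fun a ha =>
    (hδ _ ⟨U, hU, rfl⟩ a ha).trans (hβ1 n0)
  exact ⟨y, mem_iUnion.2 ⟨n0, hy1⟩, hP3 U hU y hy2⟩

end Dat

end Pool.Agent.H532Z.CL
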