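import Pool.Agent.H532Z.IndDefs

set_option autoImplicit false

namespace Pool.Agent.H532Z.IndProd

open Set Topology

universe u v

theorem IndLT.of_isEmpty (n : ℕ) : ∀ (Z : Type u) [TopologicalSpace Z], IsEmpty Z → IndLT n Z := by
  induction n with
  | zero => intro Z _ h; exact h
  | succ n ih =>
    intro Z _ h A U hA hU hAU
    refine ⟨∅, isOpen_empty, ?_, by simp, ?_⟩
    · intro x; exact (h.false x).elim
    · apply ih
      exact ⟨fun x => h.false x.1⟩

theorem IndLT.succ (n : ℕ) : ∀ (Z : Type u) [TopologicalSpace Z], IndLT n Z → IndLT (n + 1) Z := by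
  induction n with
  | zero => intro Z _ h; exact IndLT.of_isEmpty _ Z h
  | succ n ih =>
    intro Z _ h A U hA hU hAU
    obtain ⟨V, h1, h2, h3, h4⟩ := h A U hA hU hAU
    exact ⟨V, h1, h2, h3, ih _ h4⟩

theorem IndLT.mono {n m : ℕ} (h : n ≤ m) {Z : Type u} [TopologicalSpace Z] (hZ : IndLT n Z) :
    IndLT m Z := by
  induction h with
  | refl => exact hZ
  | step _ ih => exact IndLT.succ _ _ ih

theorem IndLT.homeo (n : ℕ) : ∀ (Z : Type u) (W : Type v) [TopologicalSpace Z]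
    [TopologicalSpace W], (Z ≃ₜ W) → IndLT n Z → IndLT n W := by
  induction n with
  | zero => intro Z W _ _ e h; exact ⟨fun w => h.false (e.symm w)⟩
  | succ n ih =>
    intro Z W _ _ e h A U hA hU hAU
    obtain ⟨V, h1, h2, h3, h4⟩ := h (e ⁻¹' A) (e ⁻¹' U) (hA.preimage e.continuous)
      (hU.preimage e.continuous) (preimage_mono hAU)
    refine ⟨e.symm ⁻¹' V, h1.preimage e.symm.continuous, ?_, ?_, ?_⟩
    · intro w hw
      apply h2
      simpa using hw
    · rw [← e.symm.preimage_closure]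
      intro w hw
      simpa using h3 hw
    · refine ih _ _ ?_ h4
      refine e.subtype ?_
      intro z
      rw [← e.symm.preimage_frontier]
      simp

theorem ind_lt_iff (n : ℕ) (Z : Type u) [TopologicalSpace Z] :
    Ind Z < ((n : ℤ) : WithTop ℤ) ↔ IndLT n Z := by
  classical
  unfold Ind
  by_cases h : ∃ k : ℕ, IndLT k Z
  · rw [dif_pos h, WithTop.coe_lt_coe]
    constructor
    · intro hlt
      exact IndLT.mono (by omega) (Nat.find_spec h)
    · intro hn
      have := Nat.find_min' h hn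
      omega
  · rw [dif_neg h]
    constructor
    · intro hlt
      exact absurd hlt not_top_lt
    · intro hn
      exact absurd ⟨n, hn⟩ h

/-- binary form of the finite sum theorem -/
def FS (Z : Type u) [TopologicalSpace Z] : Prop :=
  ∀ (n : ℕ) (A B : Set Z), IsClosed A → IsClosed B → IndLT n A → IndLT n B → IndLT n (A ∪ B : Set Z)

theorem FiniteSumInd.fs {Z : Type u} [TopologicalSpace Z] (h : FiniteSumInd Z) : FS Z := by
  intro n A B hA hB h1 h2
  have := h 1 ![A, B] (by intro i; fin_cases i <;> simpa)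
  have e : (⋃ i, (![A, B] : Fin 2 → Set Z) i) = A ∪ B := by
    ext x; simp [Fin.exists_fin_two]
  rw [e] at this
  rw [← ind_lt_iff]
  refine lt_of_le_of_lt this ?_
  rw [Finset.sup'_lt_iff]
  intro i _
  fin_cases i
  · exact (ind_lt_iff n _).2 h1
  · exact (ind_lt_iff n _).2 h2

/-- the subspace of a subspace is homeomorphic to its image -/
noncomputable def subsub {Z : Type u} [TopologicalSpace Z] (S : Set Z) (V : Set S) :
    V ≃ₜ ((↑) '' V : Set Z) :=
  IsEmbedding.subtypeVal.homeomorphImage V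

theorem IndLT.elim {Z : Type u} [TopologicalSpace Z] {n : ℕ} {S : Set Z} (hS : IsClosed S)
    (h : IndLT (n + 1) S) {A U : Set Z} (hA : IsClosed A) (hU : IsOpen U) (hAU : A ⊆ U) :
    ∃ a a' : Set Z, IsOpen a ∧ IsOpen a' ∧ A ⊆ a ∧ Uᶜ ⊆ a' ∧ (∀ x ∈ S, x ∈ a → x ∉ a') ∧
      IndLT n (S \ (a ∪ a') : Set Z) := by
  obtain ⟨V, h1, h2, h3, h4⟩ := h ((↑) ⁻¹' A) ((↑) ⁻¹' U) (hA.preimage continuous_subtype_val)
    (hU.preimage continuous_subtype_val) (preimage_mono hAU)
  have hc := hS.isClosedMap_subtype_val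
  refine ⟨((↑) '' Vᶜ : Set Z)ᶜ, ((↑) '' closure V : Set Z)ᶜ,
    (hc _ h1.isClosed_compl).isOpen_compl, (hc _ isClosed_closure).isOpen_compl, ?_, ?_, ?_, ?_⟩
  · rintro x hx ⟨y, hy, rfl⟩
    exact hy (h2 hx)
  · rintro x hx ⟨y, hy, rfl⟩
    exact hx (h3 hy)
  · intro x hx ha ha'
    apply ha'
    refine ⟨⟨x, hx⟩, subset_closure ?_, rfl⟩
    by_contra hh
    exact ha ⟨⟨x, hx⟩, hh, rfl⟩
  · have e : (S \ (((↑) '' Vᶜ : Set Z)ᶜ ∪ ((↑) '' closure V : Set Z)ᶜ) : Set Z)
        = (↑) '' frontier V := by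
      rw [frontier, h1.interior_eq]
      ext x
      constructor
      · rintro ⟨hx, hh⟩
        simp only [mem_union, mem_compl_iff, not_or, not_not] at hh
        obtain ⟨⟨y, hy, rfl⟩, ⟨z, hz, hzy⟩⟩ := hh
        have : z = y := Subtype.ext hzy
        subst this
        exact ⟨z, ⟨hz, hy⟩, rfl⟩
      · rintro ⟨y, ⟨hy1, hy2⟩, rfl⟩
        refine ⟨y.2, ?_⟩
        simp only [mem_union, mem_compl_iff, not_or, not_not]
        exact ⟨⟨y, hy2, rfl⟩, ⟨y, hy1, rfl⟩⟩
    rw [e]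
    exact IndLT.homeo n _ _ (subsub S _) h4

theorem IndLT.intro {P : Type u} [TopologicalSpace P] [NormalSpace P] {n : ℕ} {Z : Set P}
    (hZ : IsClosed Z)
    (h : ∀ A B : Set P, IsClosed A → IsClosed B → Disjoint A B →
      ∃ U V : Set P, IsOpen U ∧ IsOpen V ∧ (∀ p ∈ Z, p ∈ U → p ∉ V) ∧ Disjoint U B ∧
        Disjoint V A ∧ ∀ L : Set P, IsClosed L → L ⊆ Z \ (U ∪ V) → IndLT n L) :
    IndLT (n + 1) Z := by
  intro A U hA hU hAU
  have hc := hZ.isClosedMap_subtype_val
  have hA' : IsClosed ((↑) '' A : Set P) := hc _ hA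
  have hB' : IsClosed ((↑) '' Uᶜ : Set P) := hc _ hU.isClosed_compl
  have hd : Disjoint ((↑) '' A : Set P) ((↑) '' Uᶜ : Set P) := by
    rw [disjoint_image_iff Subtype.val_injective]
    exact disjoint_compl_right_iff_subset.2 hAU
  obtain ⟨O1, hO1, hAO1, hO1c⟩ := normal_exists_closure_subset hA' hB'.isOpen_compl
    (subset_compl_iff_disjoint_right.2 hd)
  obtain ⟨O2, hO2, hBO2, hO2c⟩ := normal_exists_closure_subset hB'
    (isClosed_closure (s := O1)).isOpen_compl (subset_compl_comm.1 hO1c)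
  obtain ⟨U1, V1, hU1, hV1, hUV, hUB, hVA, hL⟩ := h (closure O1) (closure O2) isClosed_closure
    isClosed_closure (subset_compl_iff_disjoint_left.1 hO2c)
  have hopen : IsOpen ((↑) ⁻¹' (U1 ∪ O1) : Set Z) := (hU1.union hO1).preimage continuous_subtype_val
  have hopen' : IsOpen ((↑) ⁻¹' (V1 ∪ O2) : Set Z) := (hV1.union hO2).preimage continuous_subtype_val
  have hdis : Disjoint ((↑) ⁻¹' (U1 ∪ O1) : Set Z) ((↑) ⁻¹' (V1 ∪ O2) : Set Z) := by
    rw [Set.disjoint_left]
    rintro z (h1 | h1) (h2 | h2)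
    · exact hUV _ z.2 h1 h2
    · exact Set.disjoint_left.1 hUB h1 (subset_closure h2)
    · exact Set.disjoint_left.1 hVA h2 (subset_closure h1)
    · exact hO2c (subset_closure h2) (subset_closure h1)
  have hcl : closure ((↑) ⁻¹' (U1 ∪ O1) : Set Z) ⊆ ((↑) ⁻¹' (V1 ∪ O2) : Set Z)ᶜ :=
    closure_minimal (subset_compl_iff_disjoint_right.2 hdis) hopen'.isClosed_compl
  refine ⟨(↑) ⁻¹' (U1 ∪ O1), hopen, ?_, ?_, ?_⟩
  · intro z hz
    exact Or.inr (hAO1 ⟨z, hz, rfl⟩)
  · intro z hz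
    by_contra hh
    exact hcl hz (Or.inr (hBO2 ⟨z, hh, rfl⟩))
  · refine IndLT.homeo n _ _ (subsub Z _).symm ?_
    apply hL _ (hc _ isClosed_frontier)
    rintro _ ⟨z, hz, rfl⟩
    rw [frontier, hopen.interior_eq] at hz
    refine ⟨z.2, ?_⟩
    rintro (h1 | h1)
    · exact hz.2 (Or.inl h1)
    · exact hcl hz.1 (Or.inl h1)

theorem ind_prod_le_of {X : Type u} {Y : Type v} [TopologicalSpace X] [TopologicalSpace Y]
    (hne : Nonempty X ∨ Nonempty Y)
    (h : ∀ n m : ℕ, IndLT (n + 1) X → IndLT (m + 1) Y → IndLT (n + m + 1) (X × Y)) :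
    Ind (X × Y) ≤ Ind X + Ind Y := by
  classical
  by_cases hX : ∃ k : ℕ, IndLT k X
  swap
  · have : Ind X = ⊤ := by unfold Ind; rw [dif_neg hX]
    rw [this]; simp
  by_cases hY : ∃ k : ℕ, IndLT k Y
  swap
  · have : Ind Y = ⊤ := by unfold Ind; rw [dif_neg hY]
    rw [this]; simp
  have eX : Ind X = ((((Nat.find hX : ℕ) : ℤ) - 1 : ℤ) : WithTop ℤ) := by
    unfold Ind; rw [dif_pos hX]
  have eY : Ind Y = ((((Nat.find hY : ℕ) : ℤ) - 1 : ℤ) : WithTop ℤ) := by
    unfold Ind; rw [dif_pos hY]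
  have sX := Nat.find_spec hX
  have sY := Nat.find_spec hY
  rw [eX, eY, ← WithTop.coe_add]
  generalize Nat.find hX = a at sX
  generalize Nat.find hY = b at sY
  have key : ∀ k : ℕ, IndLT k (X × Y) → (k : ℤ) - 1 ≤ (a : ℤ) - 1 + ((b : ℤ) - 1) →
      Ind (X × Y) ≤ ((((a : ℤ) - 1 + ((b : ℤ) - 1) : ℤ)) : WithTop ℤ) := by
    intro k hk hle
    have hex : ∃ k : ℕ, IndLT k (X × Y) := ⟨k, hk⟩
    unfold Ind
    rw [dif_pos hex, WithTop.coe_le_coe]
    have := Nat.find_min' hex hk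
    omega
  cases a with
  | zero =>
    have hXe : IsEmpty X := sX
    cases b with
    | zero =>
      have hYe : IsEmpty Y := sY
      rcases hne with ⟨⟨x⟩⟩ | ⟨⟨y⟩⟩
      · exact (hXe.false x).elim
      · exact (hYe.false y).elim
    | succ b =>
      refine key 0 ⟨fun p => hXe.false p.1⟩ ?_
      push_cast; omega
  | succ a =>
    cases b with
    | zero =>
      have hYe : IsEmpty Y := sY
      refine key 0 ⟨fun p => hYe.false p.2⟩ ?_
      push_cast; omega
    | succ b =>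
      refine key _ (h a b sX sY) ?_
      push_cast; omega

end Pool.Agent.H532Z.IndProd
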