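import Mathlib

/-!
Definitions: large inductive dimension, finite sum theorem, sigma-locally compact spaces,
strongly paracompact spaces.
-/

set_option autoImplicit false

namespace Pool.Agent.H532Z.IndProd

open Set Topology

universe u

/-- `IndLT n Z` says `Ind Z < n`, that is `Ind Z ≤ n - 1`: the space `Z` has `Ind Z ≤ -1` iff it
is empty, and `Ind Z ≤ n` iff for every closed `A` and every open `U ⊇ A` there is an open `V`
with `A ⊆ V ⊆ closure V ⊆ U` and `Ind (frontier V) ≤ n - 1`. -/
def IndLT : ℕ → (Z : Type u) → [TopologicalSpace Z] → Prop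
  | 0, Z, _ => IsEmpty Z
  | n + 1, Z, _ => ∀ A U : Set Z, IsClosed A → IsOpen U → A ⊆ U →
      ∃ V : Set Z, IsOpen V ∧ A ⊆ V ∧ closure V ⊆ U ∧ IndLT n (frontier V)

open Classical in
/-- The large inductive dimension, with values in `{-1, 0, 1, 2, …, ∞}`: if `k` is the least
natural number with `Ind Z < k`, then `Ind Z = k - 1`; if there is no such `k`, then
`Ind Z = ∞`. -/
noncomputable def Ind (Z : Type u) [TopologicalSpace Z] : WithTop ℤ :=
  if h : ∃ k : ℕ, IndLT k Z then ((((Nat.find h : ℕ) : ℤ) - 1 : ℤ) : WithTop ℤ) else ⊤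

/-- The finite sum theorem for `Ind` holds in `Z`: for every finite (nonempty) family of closed
subsets, `Ind` of the union is at most the maximum of the `Ind` of the members. -/
def FiniteSumInd (Z : Type u) [TopologicalSpace Z] : Prop :=
  ∀ (n : ℕ) (F : Fin (n + 1) → Set Z), (∀ i, IsClosed (F i)) →
    Ind (⋃ i, F i : Set Z) ≤ Finset.univ.sup' Finset.univ_nonempty (fun i => Ind (F i))

/-- `Z` is the union of countably many closed locally compact subspaces. -/
def SigmaLocallyCompact (Z : Type u) [TopologicalSpace Z] : Prop :=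
  ∃ F : ℕ → Set Z, (∀ n, IsClosed (F n)) ∧ (∀ n, LocallyCompactSpace (F n)) ∧ ⋃ n, F n = univ

/-- Every open cover of `Z` has a star-finite open refinement: an open cover each of whose
members lies in a member of the given cover and meets only finitely many of its members. -/
def StronglyParacompact (Z : Type u) [TopologicalSpace Z] : Prop :=
  ∀ 𝒰 : Set (Set Z), (∀ U ∈ 𝒰, IsOpen U) → ⋃₀ 𝒰 = univ →
    ∃ 𝒱 : Set (Set Z), (∀ V ∈ 𝒱, IsOpen V) ∧ ⋃₀ 𝒱 = univ ∧ (∀ V ∈ 𝒱, ∃ U ∈ 𝒰, V ⊆ U) ∧
      ∀ V ∈ 𝒱, {W ∈ 𝒱 | (V ∩ W).Nonempty}.Finite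

end Pool.Agent.H532Z.IndProd
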