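import Pool.Agent.H532Z.IndRect

set_option autoImplicit false

namespace Pool.Agent.H532Z.IndProd

open Set Topology

universe u v

variable {X : Type u} {Y : Type v} [TopologicalSpace X] [TopologicalSpace Y]

/-- small, uniformly in the direction of `Y` -/
def USm (k : ℕ) (S : Set (X × Y)) : Prop :=
  ∃ (M : Type u) (_ : PseudoMetricSpace M) (g : Y → M), Continuous g ∧
    ∀ m : M, ∃ N : Set M, IsOpen N ∧ m ∈ N ∧ Sm k (S ∩ Prod.snd ⁻¹' (g ⁻¹' N))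

theorem USm.mono {k : ℕ} {S S' : Set (X × Y)} (h : USm k S) (hs : S' ⊆ S) : USm k S' := by
  obtain ⟨M, _, g, hg, h⟩ := h
  refine ⟨M, inferInstance, g, hg, fun m => ?_⟩
  obtain ⟨N, h1, h2, h3⟩ := h m
  exact ⟨N, h1, h2, h3.mono (inter_subset_inter_left _ hs)⟩

theorem Sm.usm {k : ℕ} {S : Set (X × Y)} (h : Sm k S) : USm k S :=
  ⟨PUnit, inferInstance, fun _ => PUnit.unit, continuous_const,
    fun _ => ⟨Set.univ, isOpen_univ, mem_univ _, h.mono inter_subset_left⟩⟩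

theorem USm.eq_empty {S : Set (X × Y)} (h : USm 0 S) : S = ∅ := by
  obtain ⟨M, _, g, hg, h⟩ := h
  ext p
  refine ⟨fun hp => ?_, fun h => h.elim⟩
  obtain ⟨N, -, h2, h3⟩ := h (g p.2)
  rw [← h3.eq_empty]
  exact ⟨hp, h2⟩

theorem USm.union (hX : FS X) (hY : FS Y) {k : ℕ} {S S' : Set (X × Y)} (h : USm k S)
    (h' : USm k S') : USm k (S ∪ S') := by
  obtain ⟨M, _, g, hg, h⟩ := h
  obtain ⟨M', _, g', hg', h'⟩ := h'
  refine ⟨M × M', inferInstance, fun y => (g y, g' y), hg.prodMk hg', fun m => ?_⟩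
  obtain ⟨N, h1, h2, h3⟩ := h m.1
  obtain ⟨N', h1', h2', h3'⟩ := h' m.2
  refine ⟨N ×ˢ N', h1.prod h1', ⟨h2, h2'⟩, (h3.union hX hY h3').mono ?_⟩
  rintro p ⟨hp | hp, hq⟩
  · exact Or.inl ⟨hp, hq.1⟩
  · exact Or.inr ⟨hp, hq.2⟩

theorem USm.biUnion (hX : FS X) (hY : FS Y) {k : ℕ} {ι : Type*} {s : Set ι} (hs : s.Finite)
    {S : ι → Set (X × Y)} (h : ∀ i ∈ s, USm k (S i)) : USm k (⋃ i ∈ s, S i) := by
  induction s, hs using Set.Finite.induction_on with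
  | empty => simpa using (Sm.empty k).usm
  | insert ha hs ih =>
    rw [biUnion_insert]
    exact (h _ (mem_insert _ _)).union hX hY (ih fun i hi => h i (mem_insert_of_mem _ hi))

/-- locally in `X`, uniformly in `Y` small -/
def LUSm (k : ℕ) (S : Set (X × Y)) : Prop :=
  ∀ x : X, ∃ O : Set X, IsOpen O ∧ x ∈ O ∧ USm k (S ∩ Prod.fst ⁻¹' O)

theorem LUSm.mono {k : ℕ} {S S' : Set (X × Y)} (h : LUSm k S) (hs : S' ⊆ S) : LUSm k S' := by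
  intro x
  obtain ⟨N, h1, h2, h3⟩ := h x
  exact ⟨N, h1, h2, h3.mono (inter_subset_inter_left _ hs)⟩

theorem USm.lusm {k : ℕ} {S : Set (X × Y)} (h : USm k S) : LUSm k S :=
  fun _ => ⟨Set.univ, isOpen_univ, mem_univ _, h.mono inter_subset_left⟩

theorem LUSm.eq_empty {S : Set (X × Y)} (h : LUSm 0 S) : S = ∅ := by
  ext p
  refine ⟨fun hp => ?_, fun h => h.elim⟩
  obtain ⟨N, -, h2, h3⟩ := h p.1
  rw [← h3.eq_empty]
  exact ⟨hp, h2⟩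

theorem LUSm.union (hX : FS X) (hY : FS Y) {k : ℕ} {S S' : Set (X × Y)} (h : LUSm k S)
    (h' : LUSm k S') : LUSm k (S ∪ S') := by
  intro x
  obtain ⟨N, h1, h2, h3⟩ := h x
  obtain ⟨N', h1', h2', h3'⟩ := h' x
  refine ⟨N ∩ N', h1.inter h1', ⟨h2, h2'⟩, (h3.union hX hY h3').mono ?_⟩
  rintro p ⟨hp | hp, hq⟩
  · exact Or.inl ⟨hp, hq.1⟩
  · exact Or.inr ⟨hp, hq.2⟩

/-- The pieces over one compact set. -/
theorem piece [RegularSpace X] (hX : FS X) (hY : FS Y) {k : ℕ} {S : Set (X × Y)} {X' D c : Set X}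
    (hX' : IsClosed X') (hD : IsOpen D) (hc : IsClosed c) (hcD : c ⊆ D)
    (hK : IsCompact (closure D ∩ X')) (hS : USm (k + 1) (S ∩ Prod.fst ⁻¹' D))
    (f : C(X × Y, ℝ)) :
    ∃ (ι : Type u) (T T' H : ι → Set (X × Y)) (r : ι → ℝ), (∀ i, IsOpen (T i)) ∧
      (∀ i, IsOpen (T' i)) ∧ (∀ i, IsClosed (H i)) ∧ (∀ i, T i ⊆ H i) ∧ (∀ i, (T' i)ᶜ ⊆ H i) ∧
      (∀ i, H i ⊆ Prod.fst ⁻¹' D) ∧ LocallyFinite H ∧
      (∀ i, ∀ p ∈ H i, p.1 ∈ X' → |f p - r i| < 1 / 2) ∧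
      (∀ i, ∀ p ∈ S, p ∈ T i → p ∉ T' i) ∧ (Prod.fst ⁻¹' (c ∩ X') ⊆ ⋃ i, T i) ∧
      USm k (⋃ i, S \ (T i ∪ T' i)) := by
  classical
  obtain ⟨M0, _, g0, hg0, h0⟩ := hS
  set K : Set X := closure D ∩ X' with hKdef
  have : CompactSpace K := isCompact_iff_compactSpace.1 hK
  let φ : C(Y × K, ℝ) := ⟨fun q => f (q.2.1, q.1), by fun_prop⟩
  let M := M0 × C(K, ℝ)
  let g : Y → M := fun y => (g0 y, φ.curry y)
  have hg : Continuous g := hg0.prodMk φ.curry.continuous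
  have hN0 : ∀ m : M, ∃ N : Set M, IsOpen N ∧ m ∈ N ∧
      Sm (k + 1) (S ∩ Prod.fst ⁻¹' D ∩ Prod.snd ⁻¹' (g ⁻¹' N)) ∧
      ∀ m' ∈ closure N, dist m'.2 m.2 ≤ 1 / 8 := by
    intro m
    obtain ⟨N, h1, h2, h3⟩ := h0 m.1
    refine ⟨N ×ˢ Metric.ball m.2 (1 / 8), h1.prod Metric.isOpen_ball,
      ⟨h2, Metric.mem_ball_self (by norm_num)⟩, h3.mono ?_, ?_⟩
    · rintro p ⟨hp, hq⟩
      exact ⟨hp, hq.1⟩
    · intro m' hm'
      rw [closure_prod_eq] at hm'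
      exact Metric.closure_ball_subset_closedBall hm'.2
  choose N0 hN0o hN0m hN0S hN0d using hN0
  obtain ⟨N, hNo, hNc, hNl, hNN⟩ := precise_refinement N0 hN0o
    (eq_univ_of_forall fun m => mem_iUnion.2 ⟨m, hN0m m⟩)
  obtain ⟨C, hCc, hCcl, hCN⟩ := exists_iUnion_eq_closed_subset hNo
    (fun x => hNl.point_finite x) hNc
  have hcK : IsCompact (c ∩ X') :=
    hK.of_isClosed_subset (hc.inter hX') (inter_subset_inter_left _ (hcD.trans subset_closure))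
  have hU : ∀ (m : M) (x : X), ∃ (U Q : Set X) (ρ : ℝ), IsOpen U ∧ IsClosed Q ∧ Q ⊆ U ∧
      closure U ⊆ D ∧ (x ∈ c ∩ X' → Q ∈ 𝓝 x) ∧
      ∀ z : K, z.1 ∈ closure U → |m.2 z - ρ| < 1 / 8 := by
    intro m x
    by_cases hx : x ∈ c ∩ X'
    swap
    · exact ⟨∅, ∅, 0, isOpen_empty, isClosed_empty, subset_rfl, by simp, fun h => (hx h).elim,
        by simp⟩
    have hxK : x ∈ K := ⟨subset_closure (hcD hx.1), hx.2⟩
    have ho : IsOpen {z : K | |m.2 z - m.2 ⟨x, hxK⟩| < 1 / 8} :=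
      isOpen_lt (m.2.continuous.sub continuous_const).abs continuous_const
    obtain ⟨O, hO, hOe⟩ := isOpen_induced_iff.1 ho
    have hxO : x ∈ O := by
      have : (⟨x, hxK⟩ : K) ∈ Subtype.val ⁻¹' O := by rw [hOe]; simp
      exact this
    obtain ⟨Q1, hQ1, hQ1c, hQ1s⟩ := exists_mem_nhds_isClosed_subset
      ((hO.inter hD).mem_nhds ⟨hxO, hcD hx.1⟩)
    obtain ⟨Q, hQ, hQc, hQs⟩ := exists_mem_nhds_isClosed_subset (interior_mem_nhds.2 hQ1)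
    have hcl : closure (interior Q1) ⊆ O ∩ D :=
      (closure_minimal interior_subset hQ1c).trans hQ1s
    refine ⟨interior Q1, Q, m.2 ⟨x, hxK⟩, isOpen_interior, hQc, hQs,
      hcl.trans inter_subset_right, fun _ => hQ, ?_⟩
    intro z hz
    have : z ∈ Subtype.val ⁻¹' O := (hcl hz).1
    rw [hOe] at this
    exact this
  choose U Q ρ hUo hQc hQU hUD hQn hρ using hU
  have ht : ∀ m : M, ∃ t : Finset X, c ∩ X' ⊆ ⋃ x ∈ t, Q m x := by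
    intro m
    obtain ⟨t, -, ht⟩ := hcK.elim_nhds_subcover (Q m) (hQn m)
    exact ⟨t, ht⟩
  choose t ht using ht
  have hR : ∀ (m : M) (x : X), ∃ T T' : Set (X × Y), IsOpen T ∧ IsOpen T' ∧
      Q m x ×ˢ (g ⁻¹' C m) ⊆ T ∧ T ⊆ U m x ×ˢ (g ⁻¹' N m) ∧ T'ᶜ ⊆ U m x ×ˢ (g ⁻¹' N m) ∧
      (∀ p ∈ S, p ∈ T → p ∉ T') ∧ Sm k (S \ (T ∪ T')) := by
    intro m x
    obtain ⟨T, T', h1, h2, h3, h4, h5, h6, h7⟩ := (hN0S m).rect hX hY (hQc m x) (hUo m x)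
      (hQU m x) ((hCcl m).preimage hg) ((hNo m).preimage hg) (preimage_mono (hCN m))
    refine ⟨T, T', h1, h2, h3, h4, h5, ?_, h7.mono ?_⟩
    · intro p hp hT
      exact h6 p ⟨⟨hp, hUD m x (subset_closure (h4 hT).1)⟩, hNN m (h4 hT).2⟩ hT
    · rintro p ⟨hp, hh⟩
      have := h5 fun h => hh (Or.inr h)
      exact ⟨⟨⟨hp, hUD m x (subset_closure this.1)⟩, hNN m this.2⟩, hh⟩
  choose T T' hTo hT'o hQT hTU hT'U hTT hSm using hR
  let ι := {q : M × X // q.2 ∈ t q.1}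
  have hfin : ∀ s : Set M, s.Finite → {i : ι | i.1.1 ∈ s}.Finite := by
    intro s hs
    refine Set.Finite.of_finite_image (f := Subtype.val) ?_ Subtype.val_injective.injOn
    refine (hs.biUnion (t := fun m => ({m} : Set M) ×ˢ (t m : Set X)) fun m _ =>
      (finite_singleton m).prod (t m).finite_toSet).subset ?_
    rintro _ ⟨i, hi, rfl⟩
    exact mem_biUnion hi ⟨rfl, i.2⟩
  have hsub : ∀ m x, U m x ×ˢ (g ⁻¹' N m) ⊆ closure (U m x) ×ˢ (g ⁻¹' closure (N m)) :=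
    fun m x => prod_mono subset_closure (preimage_mono subset_closure)
  refine ⟨ι, fun i => T i.1.1 i.1.2, fun i => T' i.1.1 i.1.2,
    fun i => closure (U i.1.1 i.1.2) ×ˢ (g ⁻¹' closure (N i.1.1)), fun i => ρ i.1.1 i.1.2,
    fun i => hTo _ _, fun i => hT'o _ _,
    fun i => isClosed_closure.prod (isClosed_closure.preimage hg),
    fun i => (hTU _ _).trans (hsub _ _), fun i => (hT'U _ _).trans (hsub _ _),
    fun i p hp => hUD _ _ hp.1, ?_, ?_, fun i => hTT _ _, ?_, ?_⟩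
  · intro p
    obtain ⟨W, hW, hWf⟩ := hNl.closure (g p.2)
    refine ⟨Prod.snd ⁻¹' (g ⁻¹' W), (hg.comp continuous_snd).continuousAt.preimage_mem_nhds hW,
      (hfin _ hWf).subset ?_⟩
    rintro i ⟨q, hq1, hq2⟩
    exact ⟨g q.2, hq1.2, hq2⟩
  · rintro i p hp hpX
    have hpK : p.1 ∈ K := ⟨closure_mono ((subset_closure).trans (hUD _ _)) hp.1, hpX⟩
    have e1 := hρ i.1.1 i.1.2 ⟨p.1, hpK⟩ hp.1
    have e2 := hN0d i.1.1 (g p.2) (closure_mono (hNN _) hp.2)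
    have e3 := (ContinuousMap.dist_apply_le_dist (f := (g p.2).2) (g := i.1.1.2) ⟨p.1, hpK⟩).trans e2
    have e4 : (g p.2).2 ⟨p.1, hpK⟩ = f p := rfl
    rw [e4, Real.dist_eq] at e3
    rw [abs_lt] at e1 ⊢
    rw [abs_le] at e3
    constructor <;> linarith [e1.1, e1.2, e3.1, e3.2]
  · intro p hp
    obtain ⟨m, hm⟩ := mem_iUnion.1 (hCc ▸ mem_univ (g p.2) : g p.2 ∈ ⋃ m, C m)
    obtain ⟨x, hx, hpx⟩ := mem_iUnion₂.1 (ht m hp)
    exact mem_iUnion.2 ⟨⟨(m, x), hx⟩, hQT m x ⟨hpx, hm⟩⟩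
  · refine ⟨M, inferInstance, g, hg, fun m => ?_⟩
    obtain ⟨W, hW, hWf⟩ := hNl m
    refine ⟨interior W, isOpen_interior, mem_interior_iff_mem_nhds.2 hW, ?_⟩
    refine (Sm.biUnion hX hY (hfin _ hWf)
      (S := fun i => S \ (T i.1.1 i.1.2 ∪ T' i.1.1 i.1.2)) fun i _ => hSm _ _).mono ?_
    rintro p ⟨hp, hpW⟩
    obtain ⟨i, hi⟩ := mem_iUnion.1 hp
    refine mem_iUnion₂.2 ⟨i, ⟨g p.2, (hT'U _ _ fun h => hi.2 (Or.inr h)).2, interior_subset hpW⟩, hi⟩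

end Pool.Agent.H532Z.IndProd
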