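import Pool.Agent.H532Z.IndQ1a

set_option autoImplicit false

namespace Pool.Agent.H532Z.IndProd

open Set Topology

universe u v

variable {X : Type u} {Y : Type v} [TopologicalSpace X] [TopologicalSpace Y]

/-- A partition near `X' × Y`, for a closed locally compact `X'`. -/
theorem near [T2Space X] [ParacompactSpace X] [NormalSpace (X × Y)] (hX : FS X) (hY : FS Y)
    {k : ℕ} {Z E : Set (X × Y)} {X' : Set X} (hX' : IsClosed X') [LocallyCompactSpace X']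
    (hE : IsOpen E) (hXE : Prod.fst ⁻¹' X' ⊆ E) (h : LUSm (k + 1) (Z ∩ E))
    {A B : Set (X × Y)} (hA : IsClosed A) (hB : IsClosed B) (hAB : Disjoint A B) :
    ∃ W U V : Set (X × Y), IsOpen W ∧ IsOpen U ∧ IsOpen V ∧ Prod.fst ⁻¹' X' ⊆ W ∧
      (∀ p ∈ Z, p ∈ U → p ∉ V) ∧ Disjoint U B ∧ Disjoint V A ∧ LUSm k ((Z ∩ W) \ (U ∪ V)) := by
  classical
  obtain ⟨f, hfA, hfB, -⟩ := exists_continuous_zero_one_of_isClosed hA hB hAB
  have hO : ∀ x : X, ∃ O : Set X, IsOpen O ∧ x ∈ O ∧ USm (k + 1) (Z ∩ E ∩ Prod.fst ⁻¹' O) ∧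
      IsCompact (closure O ∩ X') := by
    intro x
    obtain ⟨O, h1, h2, h3⟩ := h x
    obtain ⟨O', Q, h4, h5, h6, h7⟩ : ∃ O' Q : Set X, IsOpen O' ∧ x ∈ O' ∧ IsCompact Q ∧
        O' ∩ X' ⊆ Q := by
      by_cases hx : x ∈ X'
      · obtain ⟨Q, hQ, hxQ⟩ := exists_compact_mem_nhds (⟨x, hx⟩ : X')
        obtain ⟨O', hO', hO'Q⟩ := (mem_nhds_induced _ _ _).1 hxQ
        refine ⟨interior O', Subtype.val '' Q, isOpen_interior, mem_interior_iff_mem_nhds.2 hO',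
          hQ.image continuous_subtype_val, ?_⟩
        rintro z ⟨hz1, hz2⟩
        exact ⟨⟨z, hz2⟩, hO'Q (show z ∈ O' from interior_subset hz1), rfl⟩
      · exact ⟨X'ᶜ, ∅, hX'.isOpen_compl, hx, isCompact_empty, by simp⟩
    obtain ⟨R, hR, hRc, hRs⟩ := exists_mem_nhds_isClosed_subset ((h1.inter h4).mem_nhds ⟨h2, h5⟩)
    have hcl : closure (interior R) ⊆ O ∩ O' := (closure_minimal interior_subset hRc).trans hRs
    refine ⟨interior R, isOpen_interior, mem_interior_iff_mem_nhds.2 hR, h3.mono ?_, ?_⟩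
    · exact inter_subset_inter_right _ (preimage_mono
        ((subset_closure.trans hcl).trans inter_subset_left))
    · exact h6.of_isClosed_subset (isClosed_closure.inter hX')
        ((inter_subset_inter_left _ (hcl.trans inter_subset_right)).trans h7)
  choose O hOo hOx hOS hOK using hO
  obtain ⟨D, hDo, hDc, hDl, hDO⟩ := precise_refinement O hOo
    (eq_univ_of_forall fun m => mem_iUnion.2 ⟨m, hOx m⟩)
  obtain ⟨c, hcc, hccl, hcD⟩ := exists_iUnion_eq_closed_subset hDo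
    (fun x => hDl.point_finite x) hDc
  have hpiece := fun α : X => piece hX hY (k := k) (S := Z ∩ E) hX' (hDo α) (hccl α) (hcD α)
    ((hOK α).of_isClosed_subset (isClosed_closure.inter hX')
      (inter_subset_inter_left _ (closure_mono (hDO α))))
    ((hOS α).mono (inter_subset_inter_right _ (preimage_mono (hDO α)))) f
  choose ι T T' H r hT hT' hH hTH hT'H hHD hHl hr hTT hcov hU using hpiece
  let J := Σ α : X, ι α
  have hlf : LocallyFinite (fun b : J => H b.1 b.2) := by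
    intro p
    obtain ⟨W, hW, hWf⟩ := hDl p.1
    choose W' hW' hW'f using fun α => hHl α p
    refine ⟨Prod.fst ⁻¹' W ∩ ⋂ α ∈ {α | (D α ∩ W).Nonempty}, W' α,
      Filter.inter_mem (continuous_fst.continuousAt.preimage_mem_nhds hW)
        ((Filter.biInter_mem hWf).2 fun α _ => hW' α), ?_⟩
    refine (hWf.biUnion (t := fun α => Sigma.mk α '' {i | (H α i ∩ W' α).Nonempty})
      fun α _ => (hW'f α).image _).subset ?_
    rintro ⟨α, i⟩ ⟨q, hq1, hq2, hq3⟩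
    have hα : α ∈ {α | (D α ∩ W).Nonempty} := ⟨q.1, hHD α i hq1, hq2⟩
    exact mem_biUnion hα ⟨i, ⟨q, hq1, mem_iInter₂.1 hq3 α hα⟩, rfl⟩
  let Good : J → Set (X × Y) := fun b => E ∩ {p | |f p - r b.1 b.2| < 1 / 2}
  have hGood : ∀ b, IsOpen (Good b) := fun b =>
    hE.inter (isOpen_lt (f.continuous.sub continuous_const).abs continuous_const)
  let W : Set (X × Y) := (⋃ b : J, H b.1 b.2 \ Good b)ᶜ ∩ ⋃ b : J, T b.1 b.2
  have hWo : IsOpen W := by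
    refine IsOpen.inter ?_ (isOpen_iUnion fun b => hT _ _)
    exact ((hlf.subset fun b => sdiff_subset).isClosed_iUnion
      fun b => (hH _ _).sdiff (hGood b)).isOpen_compl
  have hWG : ∀ p ∈ W, ∀ b : J, p ∈ H b.1 b.2 → p ∈ Good b := by
    intro p hp b hb
    by_contra hh
    exact hp.1 (mem_iUnion.2 ⟨b, hb, hh⟩)
  obtain ⟨lo, wo⟩ := exists_wellFoundedLT (α := J)
  let S : J → Set (X × Y) := fun b => T b.1 b.2 ∩ ⋂ a ∈ {a | a < b}, T' a.1 a.2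
  have hS : ∀ b, IsOpen (S b) := by
    intro b
    refine (hT _ _).inter ?_
    rw [← isClosed_compl_iff, compl_iInter]
    refine (hlf.subset fun a => ?_).isClosed_iUnion fun a => ?_
    · intro p hp
      by_contra hh
      apply hp
      exact mem_iInter.2 fun _ => by_contra fun h' => hh (hT'H _ _ h')
    · rw [isClosed_compl_iff]
      exact isOpen_iInter_of_finite fun _ => hT' _ _
  refine ⟨W, W ∩ ⋃ b ∈ {b : J | r b.1 b.2 ≤ 1 / 2}, S b,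
    W ∩ ⋃ b ∈ {b : J | ¬ r b.1 b.2 ≤ 1 / 2}, S b, hWo,
    hWo.inter (isOpen_biUnion fun b _ => hS b), hWo.inter (isOpen_biUnion fun b _ => hS b),
    ?_, ?_, ?_, ?_, ?_⟩
  · intro p hp
    refine ⟨?_, ?_⟩
    · intro hh
      obtain ⟨b, hb1, hb2⟩ := mem_iUnion.1 hh
      exact hb2 ⟨hXE hp, hr _ _ p hb1 hp⟩
    · obtain ⟨α, hα⟩ := mem_iUnion.1 (hcc ▸ mem_univ p.1 : p.1 ∈ ⋃ m, c m)
      obtain ⟨i, hi⟩ := mem_iUnion.1 (hcov α (show p ∈ Prod.fst ⁻¹' (c α ∩ X') from ⟨hα, hp⟩))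
      exact mem_iUnion.2 ⟨⟨α, i⟩, hi⟩
  · rintro p hp ⟨hW, h1⟩ ⟨-, h2⟩
    obtain ⟨a, ha, hpa⟩ := mem_iUnion₂.1 h1
    obtain ⟨b, hb, hpb⟩ := mem_iUnion₂.1 h2
    have hpE : p ∈ E := (hWG p hW a (hTH _ _ hpa.1)).1
    rcases lt_trichotomy a b with hlt | heq | hlt
    · exact hTT _ _ p ⟨hp, hpE⟩ hpa.1 (mem_iInter₂.1 hpb.2 a hlt)
    · subst heq; exact hb ha
    · exact hTT _ _ p ⟨hp, hpE⟩ hpb.1 (mem_iInter₂.1 hpa.2 b hlt)
  · rw [Set.disjoint_left]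
    rintro p ⟨hW, h1⟩ hpB
    obtain ⟨a, ha, hpa⟩ := mem_iUnion₂.1 h1
    have e1 : |f p - r a.1 a.2| < 1 / 2 := (hWG p hW a (hTH _ _ hpa.1)).2
    have e2 : f p = 1 := hfB hpB
    have e3 : r a.1 a.2 ≤ 1 / 2 := ha
    rw [abs_lt] at e1
    linarith [e1.2]
  · rw [Set.disjoint_left]
    rintro p ⟨hW, h1⟩ hpA
    obtain ⟨a, ha, hpa⟩ := mem_iUnion₂.1 h1
    have e1 : |f p - r a.1 a.2| < 1 / 2 := (hWG p hW a (hTH _ _ hpa.1)).2
    have e2 : f p = 0 := hfA hpA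
    have e3 : ¬ r a.1 a.2 ≤ 1 / 2 := ha
    rw [abs_lt] at e1
    linarith [e1.1]
  · intro x
    obtain ⟨R, hR, hRf⟩ := hDl x
    refine ⟨interior R, isOpen_interior, mem_interior_iff_mem_nhds.2 hR, ?_⟩
    refine (USm.biUnion hX hY hRf (S := fun α => ⋃ i, (Z ∩ E) \ (T α i ∪ T' α i))
      fun α _ => hU α).mono ?_
    rintro p ⟨⟨⟨hp, hW⟩, hn⟩, hpR⟩
    obtain ⟨a, ha⟩ := mem_iUnion.1 hW.2
    have hpE : p ∈ E := (hWG p hW a (hTH _ _ ha)).1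
    have hne : ({b : J | p ∉ T' b.1 b.2}).Nonempty := ⟨a, hTT _ _ p ⟨hp, hpE⟩ ha⟩
    obtain ⟨b, hb, hmin⟩ := wo.wf.has_min _ hne
    refine mem_iUnion₂.2 ⟨b.1, ⟨p.1, hHD _ _ (hT'H _ _ hb), interior_subset hpR⟩,
      mem_iUnion.2 ⟨b.2, ⟨hp, hpE⟩, ?_⟩⟩
    rintro (hT | hT)
    swap
    · exact hb hT
    have hpS : p ∈ S b := ⟨hT, mem_iInter₂.2 fun a ha => by_contra fun hh => hmin a hh ha⟩
    apply hn
    by_cases hd : r b.1 b.2 ≤ 1 / 2
    · exact Or.inl ⟨hW, mem_iUnion₂.2 ⟨b, hd, hpS⟩⟩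
    · exact Or.inr ⟨hW, mem_iUnion₂.2 ⟨b, hd, hpS⟩⟩

/-- the class used in the induction -/
def Sig (F : ℕ → Set X) (k : ℕ) (Z : Set (X × Y)) : Prop :=
  ∀ n, ∃ E : Set (X × Y), IsOpen E ∧ Prod.fst ⁻¹' (F n) ⊆ E ∧ LUSm k (Z ∩ E)

theorem exists_seq {σ : Type*} (Inv : σ → Prop) (R : ℕ → σ → σ → Prop) (s0 : σ) (h0 : Inv s0)
    (hstep : ∀ n s, Inv s → ∃ s', Inv s' ∧ R n s s') :
    ∃ s : ℕ → σ, (∀ n, Inv (s n)) ∧ ∀ n, R n (s n) (s (n + 1)) := by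
  choose nx h1 h2 using hstep
  let s : ℕ → {s // Inv s} := fun n => Nat.rec ⟨s0, h0⟩ (fun n s => ⟨nx n s.1 s.2, h1 _ _ _⟩) n
  exact ⟨fun n => (s n).1, fun n => (s n).2, fun n => h2 _ _ _⟩

theorem Sig.step [T2Space X] [ParacompactSpace X] [NormalSpace (X × Y)] (hX : FS X) (hY : FS Y)
    {F : ℕ → Set X} (hF : ∀ n, IsClosed (F n)) (hFl : ∀ n, LocallyCompactSpace (F n))
    {k : ℕ} {Z : Set (X × Y)} (h : Sig F (k + 1) Z)
    {A B : Set (X × Y)} (hA : IsClosed A) (hB : IsClosed B) (hAB : Disjoint A B) :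
    ∃ U V : Set (X × Y), IsOpen U ∧ IsOpen V ∧ (∀ p ∈ Z, p ∈ U → p ∉ V) ∧ Disjoint U B ∧
      Disjoint V A ∧ Sig F k (Z \ (U ∪ V)) := by
  let σ := Set (X × Y) × Set (X × Y) × Set (X × Y) × Set (X × Y)
  let Inv : σ → Prop := fun s => IsOpen s.1 ∧ IsOpen s.2.1 ∧ IsOpen s.2.2.1 ∧ IsOpen s.2.2.2 ∧
    closure s.1 ⊆ s.2.1 ∧ (∀ p ∈ Z, p ∈ s.2.2.1 → p ∉ s.2.2.2) ∧ Disjoint s.2.2.1 B ∧
    Disjoint s.2.2.2 A ∧ LUSm k ((Z ∩ s.2.1) \ (s.2.2.1 ∪ s.2.2.2))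
  let R : ℕ → σ → σ → Prop := fun n s s' => Prod.fst ⁻¹' (F n) ⊆ s'.1 ∧ s.1 ⊆ s'.1 ∧
    s.2.2.1 ∩ s.1 ⊆ s'.2.2.1 ∧ s.2.2.2 ∩ s.1 ⊆ s'.2.2.2
  have hstep : ∀ n s, Inv s → ∃ s', Inv s' ∧ R n s s' := by
    rintro n ⟨E, W, U, V⟩ ⟨hE, hW, hU, hV, hEW, hUV, hUB, hVA, hL⟩
    dsimp only at hE hW hU hV hEW hUV hUB hVA hL
    obtain ⟨E0, hE0, hFE0, hS0⟩ := h n
    have := hFl n
    obtain ⟨E1, hE1, hEE1, hE1W⟩ := normal_exists_closure_subset isClosed_closure hW hEW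
    obtain ⟨W1, U1, V1, hW1, hU1, hV1, hFW1, hUV1, hUB1, hVA1, hL1⟩ :=
      near hX hY (hF n) hE0 hFE0 hS0 hA hB hAB
    obtain ⟨W2, T, T', hW2, hT, hT', hFW2, hTT, hTW, hT'E, hL2⟩ :=
      near hX hY (hF n) hE0 hFE0 hS0 (isClosed_closure (s := E1)) hW.isClosed_compl
        (disjoint_compl_right_iff_subset.2 hE1W)
    obtain ⟨E2, hE2, hEE2, hE2W⟩ := normal_exists_closure_subset
      ((isClosed_closure (s := E)).union ((hF n).preimage continuous_fst))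
      (hE1.union (hW1.inter hW2)) (union_subset_union hEE1 (subset_inter hFW1 hFW2))
    have hdis : ∀ p ∈ Z, p ∈ E1 ∪ T → p ∉ T' := by
      rintro p hp (h1 | h1) h2
      · exact Set.disjoint_left.1 hT'E h2 (subset_closure h1)
      · exact hTT p hp h1 h2
    refine ⟨(E2, E1 ∪ (W1 ∩ W2), (U ∩ (E1 ∪ T)) ∪ (U1 ∩ T'), (V ∩ (E1 ∪ T)) ∪ (V1 ∩ T')),
      ⟨hE2, hE1.union (hW1.inter hW2), (hU.inter (hE1.union hT)).union (hU1.inter hT'),
        (hV.inter (hE1.union hT)).union (hV1.inter hT'), hE2W, ?_, ?_, ?_, ?_⟩, ?_, ?_, ?_, ?_⟩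
    · rintro p hp (h1 | h1) (h2 | h2)
      · exact hUV p hp h1.1 h2.1
      · exact hdis p hp h1.2 h2.2
      · exact hdis p hp h2.2 h1.2
      · exact hUV1 p hp h1.1 h2.1
    · exact disjoint_union_left.2 ⟨hUB.mono_left inter_subset_left,
        hUB1.mono_left inter_subset_left⟩
    · exact disjoint_union_left.2 ⟨hVA.mono_left inter_subset_left,
        hVA1.mono_left inter_subset_left⟩
    · refine ((hL.union hX hY hL1).union hX hY hL2).mono ?_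
      rintro p ⟨⟨hp, hpW⟩, hn⟩
      by_cases h1 : p ∈ E1 ∪ T
      · refine Or.inl (Or.inl ⟨⟨hp, ?_⟩, ?_⟩)
        · rcases h1 with h1 | h1
          · exact hE1W (subset_closure h1)
          · exact by_contra fun hh => Set.disjoint_left.1 hTW h1 hh
        · rintro (h2 | h2)
          · exact hn (Or.inl (Or.inl ⟨h2, h1⟩))
          · exact hn (Or.inr (Or.inl ⟨h2, h1⟩))
      · have hp12 : p ∈ W1 ∩ W2 := hpW.resolve_left fun h => h1 (Or.inl h)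
        by_cases h2 : p ∈ T'
        · refine Or.inl (Or.inr ⟨⟨hp, hp12.1⟩, ?_⟩)
          rintro (h3 | h3)
          · exact hn (Or.inl (Or.inr ⟨h3, h2⟩))
          · exact hn (Or.inr (Or.inr ⟨h3, h2⟩))
        · refine Or.inr ⟨⟨hp, hp12.2⟩, ?_⟩
          rintro (h3 | h3)
          · exact h1 (Or.inr h3)
          · exact h2 h3
    · exact subset_union_right.trans hEE2
    · exact (subset_closure.trans subset_union_left).trans hEE2
    · rintro p ⟨h1, h2⟩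
      exact Or.inl ⟨h1, Or.inl (hEE1 (subset_closure h2))⟩
    · rintro p ⟨h1, h2⟩
      exact Or.inl ⟨h1, Or.inl (hEE1 (subset_closure h2))⟩
  obtain ⟨s, hs, hR⟩ := exists_seq Inv R (∅, ∅, ∅, ∅)
    ⟨isOpen_empty, isOpen_empty, isOpen_empty, isOpen_empty, by simp, by simp, by simp, by simp,
      by simpa using (Sm.empty k).usm.lusm⟩ hstep
  have hmU : Monotone fun n => (s n).2.2.1 ∩ (s n).1 :=
    monotone_nat_of_le_succ fun n => subset_inter (hR n).2.2.1 (inter_subset_right.trans (hR n).2.1)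
  have hmV : Monotone fun n => (s n).2.2.2 ∩ (s n).1 :=
    monotone_nat_of_le_succ fun n => subset_inter (hR n).2.2.2 (inter_subset_right.trans (hR n).2.1)
  refine ⟨⋃ n, (s n).2.2.1 ∩ (s n).1, ⋃ n, (s n).2.2.2 ∩ (s n).1,
    isOpen_iUnion fun n => (hs n).2.2.1.inter (hs n).1,
    isOpen_iUnion fun n => (hs n).2.2.2.1.inter (hs n).1, ?_, ?_, ?_, ?_⟩
  · intro p hp h1 h2
    obtain ⟨n, hn⟩ := mem_iUnion.1 h1
    obtain ⟨m, hm⟩ := mem_iUnion.1 h2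
    exact (hs (max n m)).2.2.2.2.2.1 p hp (hmU (le_max_left n m) hn).1 (hmV (le_max_right n m) hm).1
  · exact disjoint_iUnion_left.2 fun n => (hs n).2.2.2.2.2.2.1.mono_left inter_subset_left
  · exact disjoint_iUnion_left.2 fun n => (hs n).2.2.2.2.2.2.2.1.mono_left inter_subset_left
  · intro n
    refine ⟨(s (n + 1)).1, (hs _).1, (hR n).1, (hs (n + 1)).2.2.2.2.2.2.2.2.mono ?_⟩
    rintro p ⟨⟨hp, hn⟩, hpE⟩
    refine ⟨⟨hp, (hs _).2.2.2.2.1 (subset_closure hpE)⟩, ?_⟩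
    rintro (h1 | h1)
    · exact hn (Or.inl (mem_iUnion.2 ⟨n + 1, h1, hpE⟩))
    · exact hn (Or.inr (mem_iUnion.2 ⟨n + 1, h1, hpE⟩))

theorem Sig.indLT [T2Space X] [ParacompactSpace X] [NormalSpace (X × Y)] (hX : FS X) (hY : FS Y)
    {F : ℕ → Set X} (hF : ∀ n, IsClosed (F n)) (hFl : ∀ n, LocallyCompactSpace (F n))
    (hFc : ⋃ n, F n = univ) (k : ℕ) :
    ∀ Z : Set (X × Y), IsClosed Z → Sig F k Z → IndLT k Z := by
  induction k with
  | zero =>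
    intro Z _ h
    refine ⟨fun z => ?_⟩
    obtain ⟨n, hn⟩ := mem_iUnion.1 (hFc ▸ mem_univ z.1.1 : z.1.1 ∈ ⋃ n, F n)
    obtain ⟨E, -, hE, hS⟩ := h n
    have : z.1 ∈ Z ∩ E := ⟨z.2, hE hn⟩
    rw [hS.eq_empty] at this
    exact this
  | succ k ih =>
    intro Z hZ h
    refine IndLT.intro hZ fun A B hA hB hAB => ?_
    obtain ⟨U, V, h1, h2, h3, h4, h5, h6⟩ := h.step hX hY hF hFl hA hB hAB
    refine ⟨U, V, h1, h2, h3, h4, h5, fun L hL hLs => ih L hL fun n => ?_⟩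
    obtain ⟨O, hO, hp, hS⟩ := h6 n
    exact ⟨O, hO, hp, hS.mono (inter_subset_inter_left _ hLs)⟩

theorem q1 [T2Space X] [ParacompactSpace X] [NormalSpace (X × Y)]
    (hne : Nonempty X ∨ Nonempty Y) (hX : FiniteSumInd X)
    (hY : FiniteSumInd Y) (hσ : SigmaLocallyCompact X) :
    Ind (X × Y) ≤ Ind X + Ind Y := by
  refine ind_prod_le_of hne fun n m hn hm => ?_
  obtain ⟨F, hF, hFl, hFc⟩ := hσ
  refine IndLT.homeo _ _ _ (Homeomorph.Set.univ (X × Y)) ?_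
  refine Sig.indLT hX.fs hY.fs hF hFl hFc _ _ isClosed_univ fun p =>
    ⟨univ, isOpen_univ, subset_univ _, ?_⟩
  exact ((Sm.univ hn hm).mono (subset_univ _)).usm.lusm

end Pool.Agent.H532Z.IndProd
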