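import Pool.Agent.H532Z.IndRect

set_option autoImplicit false

namespace Pool.Agent.H532Z.IndProd

open Set Topology

universe u v

/-- A star-finite family splits into classes of chains, each countable. -/
theorem exists_rank {P : Type u} (𝒱 : Set (Set P))
    (hs : ∀ V ∈ 𝒱, {W ∈ 𝒱 | (V ∩ W).Nonempty}.Finite) :
    ∃ (E : 𝒱 → 𝒱 → Prop) (r : 𝒱 → ℕ), Equivalence E ∧
      (∀ V W : 𝒱, (V.1 ∩ W.1).Nonempty → E V W) ∧ ∀ V W, E V W → r V = r W → V = W := by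
  classical
  let adj : 𝒱 → 𝒱 → Prop := fun V W => (V.1 ∩ W.1).Nonempty
  have hsymm : ∀ a b, adj a b → adj b a := fun a b h => by
    simp only [adj] at h ⊢; rwa [inter_comm]
  let E : 𝒱 → 𝒱 → Prop := Relation.ReflTransGen adj
  have hE : Equivalence E := by
    refine ⟨fun _ => Relation.ReflTransGen.refl, ?_, fun h1 h2 => h1.trans h2⟩
    intro a b h
    induction h with
    | refl => exact Relation.ReflTransGen.refl
    | tail _ h2 ih => exact Relation.ReflTransGen.head (hsymm _ _ h2) ih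
  have hadj : ∀ V : 𝒱, {W | adj V W}.Finite := by
    intro V
    refine Set.Finite.of_finite_image (f := Subtype.val) ((hs V.1 V.2).subset ?_)
      Subtype.val_injective.injOn
    rintro _ ⟨W, hW, rfl⟩
    exact ⟨W.2, hW⟩
  have hcount : ∀ V : 𝒱, {W | E V W}.Countable := by
    intro V
    let s : ℕ → Set 𝒱 := fun n => Nat.rec {V} (fun _ t => ⋃ W ∈ t, {W' | adj W W'}) n
    have hfin : ∀ n, (s n).Finite := by
      intro n
      induction n with
      | zero => exact finite_singleton V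
      | succ n ih => exact ih.biUnion fun W _ => hadj W
    refine (countable_iUnion fun n => (hfin n).countable).mono ?_
    intro W hW
    induction hW with
    | refl => exact mem_iUnion.2 ⟨0, rfl⟩
    | tail _ h2 ih =>
      obtain ⟨n, hn⟩ := mem_iUnion.1 ih
      exact mem_iUnion.2 ⟨n + 1, mem_biUnion hn h2⟩
  let st : Setoid 𝒱 := ⟨E, hE⟩
  have hc : ∀ c : Quotient st, ∃ f : 𝒱 → ℕ, InjOn f {W | Quotient.mk st W = c} := by
    intro c
    induction c using Quotient.inductionOn with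
    | h V =>
      have : {W | Quotient.mk st W = Quotient.mk st V} = {W | E V W} := by
        ext W
        simp only [mem_ofPred_eq, Quotient.eq]
        exact ⟨fun h => hE.symm h, fun h => hE.symm h⟩
      rw [this]
      exact countable_iff_exists_injOn.1 (hcount V)
  choose f hf using hc
  refine ⟨E, fun V => f (Quotient.mk st V) V, hE, fun V W h => Relation.ReflTransGen.single h, ?_⟩
  intro V W h hr
  have e : Quotient.mk st V = Quotient.mk st W := Quotient.sound h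
  dsimp only at hr
  rw [e] at hr
  exact hf _ e rfl hr

variable {X : Type u} {Y : Type v} [TopologicalSpace X] [TopologicalSpace Y]

/-- locally small -/
def LSm (k : ℕ) (Z : Set (X × Y)) : Prop := ∀ p, ∃ O, IsOpen O ∧ p ∈ O ∧ Sm k (Z ∩ O)

theorem LSm.step [T1Space X] [T1Space Y] (hX : FS X) (hY : FS Y)
    (hP : StronglyParacompact (X × Y)) {k : ℕ} {Z : Set (X × Y)} (h : LSm (k + 1) Z)
    {A B : Set (X × Y)} (hA : IsClosed A) (hB : IsClosed B) (hAB : Disjoint A B) :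
    ∃ U V : Set (X × Y), IsOpen U ∧ IsOpen V ∧ (∀ p ∈ Z, p ∈ U → p ∉ V) ∧ Disjoint U B ∧
      Disjoint V A ∧ LSm k (Z \ (U ∪ V)) := by
  classical
  have loc : ∀ p : X × Y, ∃ T T' : Set (X × Y), IsOpen T ∧ IsOpen T' ∧ p ∈ T ∧
      (Disjoint T A ∨ Disjoint T B) ∧ (∀ q ∈ Z, q ∈ T → q ∉ T') ∧ Sm k (Z \ (T ∪ T')) := by
    intro p
    obtain ⟨O, hO, hpO, hS⟩ := h p
    obtain ⟨O', hO', hpO', hO'O, hO'AB⟩ : ∃ O', IsOpen O' ∧ p ∈ O' ∧ O' ⊆ O ∧
        (Disjoint O' A ∨ Disjoint O' B) := by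
      by_cases hp : p ∈ A
      · exact ⟨O ∩ Bᶜ, hO.inter hB.isOpen_compl, ⟨hpO, Set.disjoint_left.1 hAB hp⟩,
          inter_subset_left, Or.inr (Set.disjoint_left.2 fun q hq => hq.2)⟩
      · exact ⟨O ∩ Aᶜ, hO.inter hA.isOpen_compl, ⟨hpO, hp⟩,
          inter_subset_left, Or.inl (Set.disjoint_left.2 fun q hq => hq.2)⟩
    obtain ⟨U, N, hU, hN, h1, h2, hUN⟩ := isOpen_prod_iff.1 hO' p.1 p.2 hpO'
    obtain ⟨T, T', hT, hT', h3, h4, h5, h6, h7⟩ := hS.rect hX hY (isClosed_singleton (x := p.1))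
      hU (singleton_subset_iff.2 h1) (isClosed_singleton (x := p.2)) hN (singleton_subset_iff.2 h2)
    refine ⟨T, T', hT, hT', h3 ⟨rfl, rfl⟩, ?_, ?_, h7.mono ?_⟩
    · exact hO'AB.imp (fun h => h.mono_left (h4.trans hUN)) (fun h => h.mono_left (h4.trans hUN))
    · intro q hq hqT
      exact h6 q ⟨hq, hO'O (hUN (h4 hqT))⟩ hqT
    · rintro q ⟨hq, hh⟩
      refine ⟨⟨hq, hO'O (hUN (h5 fun h => hh (Or.inr h)))⟩, hh⟩
  choose T T' hT hT' hpT hTAB hTT hSm using loc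
  obtain ⟨𝒱, hVo, hVc, hVr, hVs⟩ := hP (range T) (by rintro _ ⟨p, rfl⟩; exact hT p)
    (eq_univ_of_forall fun p => ⟨T p, ⟨p, rfl⟩, hpT p⟩)
  have hpt : ∀ V : 𝒱, ∃ p, V.1 ⊆ T p := by
    intro V
    obtain ⟨_, ⟨p, rfl⟩, hp⟩ := hVr V.1 V.2
    exact ⟨p, hp⟩
  choose pt hpt using hpt
  obtain ⟨E, r, hE, hEadj, hr⟩ := exists_rank 𝒱 hVs
  have hlow : ∀ (V : 𝒱) (n : ℕ), {W | E V W ∧ r W ≤ n}.Finite := by
    intro V n
    refine Set.Finite.of_finite_image (f := r) ((finite_Iic n).subset ?_) ?_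
    · rintro _ ⟨W, hW, rfl⟩; exact hW.2
    · intro W hW W' hW' e
      exact hr _ _ (hE.trans (hE.symm hW.1) hW'.1) e
  let Zc : 𝒱 → Set (X × Y) := fun V => ⋃ W ∈ {W | E V W}, W.1
  let S : 𝒱 → Set (X × Y) := fun V =>
    T (pt V) ∩ Zc V ∩ ⋂ W ∈ {W | E V W ∧ r W < r V}, T' (pt W)
  have hS : ∀ V, IsOpen (S V) := by
    intro V
    refine ((hT _).inter (isOpen_biUnion fun W _ => hVo _ W.2)).inter ?_
    exact ((hlow V (r V)).subset fun W hW => ⟨hW.1, hW.2.le⟩).isOpen_biInter fun W _ => hT' _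
  have hdis : ∀ V W, ∀ p ∈ Z, p ∈ S V → p ∈ S W → V = W := by
    intro V W p hp h1 h2
    obtain ⟨V1, hV1, hp1⟩ := mem_iUnion₂.1 h1.1.2
    obtain ⟨W1, hW1, hp2⟩ := mem_iUnion₂.1 h2.1.2
    have hVW : E V W := hE.trans (hE.trans hV1 (hEadj _ _ ⟨p, hp1, hp2⟩)) (hE.symm hW1)
    rcases lt_trichotomy (r V) (r W) with hlt | heq | hlt
    · exact (hTT _ p hp h1.1.1 (mem_iInter₂.1 h2.2 V ⟨hE.symm hVW, hlt⟩)).elim
    · exact hr _ _ hVW heq
    · exact (hTT _ p hp h2.1.1 (mem_iInter₂.1 h1.2 W ⟨hVW, hlt⟩)).elim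
  refine ⟨⋃ V ∈ {V | Disjoint (T (pt V)) B}, S V, ⋃ V ∈ {V | ¬ Disjoint (T (pt V)) B}, S V,
    isOpen_biUnion fun V _ => hS V, isOpen_biUnion fun V _ => hS V, ?_, ?_, ?_, ?_⟩
  · intro p hp h1 h2
    obtain ⟨V, hV, hp1⟩ := mem_iUnion₂.1 h1
    obtain ⟨W, hW, hp2⟩ := mem_iUnion₂.1 h2
    have := hdis V W p hp hp1 hp2
    subst this
    exact hW hV
  · rw [Set.disjoint_left]
    intro p h1 h2
    obtain ⟨V, hV, hp1⟩ := mem_iUnion₂.1 h1
    exact Set.disjoint_left.1 hV hp1.1.1 h2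
  · rw [Set.disjoint_left]
    intro p h1 h2
    obtain ⟨V, hV, hp1⟩ := mem_iUnion₂.1 h1
    exact Set.disjoint_left.1 ((hTAB _).resolve_right hV) hp1.1.1 h2
  · intro q
    obtain ⟨V0, hV0, hq⟩ : q ∈ ⋃₀ 𝒱 := hVc ▸ mem_univ q
    let V : 𝒱 := ⟨V0, hV0⟩
    refine ⟨V0, hVo _ hV0, hq, ?_⟩
    refine (Sm.biUnion hX hY (hlow V (r V)) (S := fun W => Z \ (T (pt W) ∪ T' (pt W)))
      fun W _ => hSm _).mono ?_
    rintro z ⟨⟨hz, hzn⟩, hzV⟩
    have hex : ∃ n, ∃ W, E V W ∧ r W = n ∧ z ∉ T' (pt W) :=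
      ⟨r V, V, hE.refl V, rfl, hTT _ z hz (hpt V hzV)⟩
    obtain ⟨W, hW, hrW, hzW⟩ := Nat.find_spec hex
    have hmin : ∀ W', E V W' → z ∉ T' (pt W') → r W ≤ r W' := by
      intro W' h1 h2
      rw [hrW]
      exact Nat.find_min' hex ⟨W', h1, rfl, h2⟩
    refine mem_iUnion₂.2 ⟨W, ⟨hW, hmin V (hE.refl V) (hTT _ z hz (hpt V hzV))⟩, hz, ?_⟩
    rintro (hzT | hzT)
    swap
    · exact hzW hzT
    have hzS : z ∈ S W := by
      refine ⟨⟨hzT, mem_iUnion₂.2 ⟨V, hE.symm hW, hzV⟩⟩, mem_iInter₂.2 ?_⟩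
      intro W' hW'
      by_contra hh
      have := hmin W' (hE.trans hW hW'.1) hh
      have := hW'.2
      omega
    apply hzn
    by_cases hd : Disjoint (T (pt W)) B
    · exact Or.inl (mem_iUnion₂.2 ⟨W, hd, hzS⟩)
    · exact Or.inr (mem_iUnion₂.2 ⟨W, hd, hzS⟩)

theorem LSm.indLT [T1Space X] [T1Space Y] [NormalSpace (X × Y)] (hX : FS X) (hY : FS Y)
    (hP : StronglyParacompact (X × Y)) (k : ℕ) :
    ∀ Z : Set (X × Y), IsClosed Z → LSm k Z → IndLT k Z := by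
  induction k with
  | zero =>
    intro Z _ h
    refine ⟨fun z => ?_⟩
    obtain ⟨O, -, hO, hS⟩ := h z.1
    have : z.1 ∈ Z ∩ O := ⟨z.2, hO⟩
    rw [hS.eq_empty] at this
    exact this
  | succ k ih =>
    intro Z hZ h
    refine IndLT.intro hZ fun A B hA hB hAB => ?_
    obtain ⟨U, V, h1, h2, h3, h4, h5, h6⟩ := h.step hX hY hP hA hB hAB
    refine ⟨U, V, h1, h2, h3, h4, h5, fun L hL hLs => ih L hL fun p => ?_⟩
    obtain ⟨O, hO, hp, hS⟩ := h6 p
    exact ⟨O, hO, hp, hS.mono (inter_subset_inter_left _ hLs)⟩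

theorem q2 [T4Space (X × Y)] (hne : Nonempty X ∨ Nonempty Y) (hX : FiniteSumInd X)
    (hY : FiniteSumInd Y) (hP : StronglyParacompact (X × Y)) :
    Ind (X × Y) ≤ Ind X + Ind Y := by
  refine ind_prod_le_of hne fun n m hn hm => ?_
  by_cases hP0 : Nonempty (X × Y)
  swap
  · exact IndLT.of_isEmpty _ _ (not_nonempty_iff.1 hP0)
  obtain ⟨⟨x, y⟩⟩ := hP0
  haveI : T1Space X := (isEmbedding_prodMkLeft y).t1Space
  haveI : T1Space Y := (isEmbedding_prodMkRight x).t1Space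
  refine IndLT.homeo _ _ _ (Homeomorph.Set.univ (X × Y)) ?_
  refine LSm.indLT hX.fs hY.fs hP _ _ isClosed_univ fun p => ⟨univ, isOpen_univ, mem_univ _, ?_⟩
  exact (Sm.univ hn hm).mono (subset_univ _)

end Pool.Agent.H532Z.IndProd
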