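import Pool.Agent.H532Z.IndBasic

set_option autoImplicit false

namespace Pool.Agent.H532Z.IndProd

open Set Topology

universe u v

variable {X : Type u} {Y : Type v} [TopologicalSpace X] [TopologicalSpace Y]

/-- `S` lies in a finite union of closed rectangles of total dimension less than `k`. -/
def Sm (k : ℕ) (S : Set (X × Y)) : Prop :=
  ∃ (F : ℕ → Set X) (G : ℕ → Set Y), (∀ i, IsClosed (F i)) ∧ (∀ i, IndLT (i + 1) (F i)) ∧
    (∀ j, IsClosed (G j)) ∧ (∀ j, IndLT (j + 1) (G j)) ∧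
    ∀ p ∈ S, ∃ i j, i + j < k ∧ p.1 ∈ F i ∧ p.2 ∈ G j

theorem Sm.mono {k : ℕ} {S S' : Set (X × Y)} (h : Sm k S) (hs : S' ⊆ S) : Sm k S' := by
  obtain ⟨F, G, h1, h2, h3, h4, h5⟩ := h
  exact ⟨F, G, h1, h2, h3, h4, fun p hp => h5 p (hs hp)⟩

theorem Sm.empty (k : ℕ) : Sm k (∅ : Set (X × Y)) :=
  ⟨fun _ => ∅, fun _ => ∅, fun _ => isClosed_empty,
    fun _ => IndLT.of_isEmpty _ _ inferInstance, fun _ => isClosed_empty,
    fun _ => IndLT.of_isEmpty _ _ inferInstance, fun _ h => h.elim⟩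

theorem Sm.eq_empty {S : Set (X × Y)} (h : Sm 0 S) : S = ∅ := by
  obtain ⟨F, G, -, -, -, -, h5⟩ := h
  ext p
  refine ⟨fun hp => ?_, fun h => h.elim⟩
  obtain ⟨i, j, h, -⟩ := h5 p hp
  omega

theorem Sm.union (hX : FS X) (hY : FS Y) {k : ℕ} {S S' : Set (X × Y)} (h : Sm k S)
    (h' : Sm k S') : Sm k (S ∪ S') := by
  obtain ⟨F, G, h1, h2, h3, h4, h5⟩ := h
  obtain ⟨F', G', h1', h2', h3', h4', h5'⟩ := h'
  refine ⟨fun i => F i ∪ F' i, fun j => G j ∪ G' j, fun i => (h1 i).union (h1' i),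
    fun i => hX _ _ _ (h1 i) (h1' i) (h2 i) (h2' i), fun i => (h3 i).union (h3' i),
    fun i => hY _ _ _ (h3 i) (h3' i) (h4 i) (h4' i), ?_⟩
  rintro p (hp | hp)
  · obtain ⟨i, j, a, b, c⟩ := h5 p hp
    exact ⟨i, j, a, Or.inl b, Or.inl c⟩
  · obtain ⟨i, j, a, b, c⟩ := h5' p hp
    exact ⟨i, j, a, Or.inr b, Or.inr c⟩

theorem Sm.biUnion (hX : FS X) (hY : FS Y) {k : ℕ} {ι : Type*} {s : Set ι} (hs : s.Finite)
    {S : ι → Set (X × Y)} (h : ∀ i ∈ s, Sm k (S i)) : Sm k (⋃ i ∈ s, S i) := by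
  induction s, hs using Set.Finite.induction_on with
  | empty => simpa using Sm.empty k
  | insert ha hs ih =>
    rw [biUnion_insert]
    exact (h _ (mem_insert _ _)).union hX hY (ih fun i hi => h i (mem_insert_of_mem _ hi))

theorem IndLT.of_eq {n : ℕ} {A B : Set X} (h : A = B) (hA : IndLT n A) : IndLT n B := by
  subst h; exact hA

theorem Sm.univ {n m : ℕ} (hX : IndLT (n + 1) X) (hY : IndLT (m + 1) Y) :
    Sm (n + m + 1) (univ : Set (X × Y)) := by
  classical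
  refine ⟨fun i => if i = n then Set.univ else ∅, fun j => if j = m then Set.univ else ∅,
    ?_, ?_, ?_, ?_, ?_⟩
  · intro i; dsimp only; split_ifs <;> simp
  · intro i
    by_cases h : i = n
    · subst h
      exact IndLT.of_eq (if_pos rfl).symm (IndLT.homeo _ _ _ (Homeomorph.Set.univ X).symm hX)
    · exact IndLT.of_eq (if_neg h).symm (IndLT.of_isEmpty _ _ inferInstance)
  · intro i; dsimp only; split_ifs <;> simp
  · intro i
    by_cases h : i = m
    · subst h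
      exact IndLT.of_eq (if_pos rfl).symm (IndLT.homeo _ _ _ (Homeomorph.Set.univ Y).symm hY)
    · exact IndLT.of_eq (if_neg h).symm (IndLT.of_isEmpty _ _ inferInstance)
  · intro p _
    exact ⟨n, m, by omega, by simp, by simp⟩

/-- The rectangle lemma. -/
theorem Sm.rect (hX : FS X) (hY : FS Y) {k : ℕ} {S : Set (X × Y)} (h : Sm (k + 1) S)
    {K U : Set X} {C N : Set Y} (hK : IsClosed K) (hU : IsOpen U) (hKU : K ⊆ U)
    (hC : IsClosed C) (hN : IsOpen N) (hCN : C ⊆ N) :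
    ∃ T T' : Set (X × Y), IsOpen T ∧ IsOpen T' ∧ K ×ˢ C ⊆ T ∧ T ⊆ U ×ˢ N ∧ T'ᶜ ⊆ U ×ˢ N ∧
      (∀ p ∈ S, p ∈ T → p ∉ T') ∧ Sm k (S \ (T ∪ T')) := by
  obtain ⟨F, G, h1, h2, h3, h4, h5⟩ := h
  choose a a' ha ha' hKa hUa haa hda using fun i => IndLT.elim (h1 i) (h2 i) hK hU hKU
  choose b b' hb hb' hCb hNb hbb hdb using fun j => IndLT.elim (h3 j) (h4 j) hC hN hCN
  have hfin : {q : ℕ × ℕ | q.1 + q.2 ≤ k}.Finite := by
    refine ((finite_Iic k).prod (finite_Iic k)).subset ?_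
    intro q hq
    simp only [mem_ofPred_eq] at hq
    exact ⟨by simp; omega, by simp; omega⟩
  have hZ : ∀ q : ℕ × ℕ, IsOpen (F q.1 ×ˢ G q.2)ᶜ := fun q => ((h1 _).prod (h3 _)).isOpen_compl
  refine ⟨(U ×ˢ N) ∩ ⋂ q ∈ {q : ℕ × ℕ | q.1 + q.2 ≤ k}, ((a q.1 ×ˢ b q.2) ∪ (F q.1 ×ˢ G q.2)ᶜ),
    ⋂ q ∈ {q : ℕ × ℕ | q.1 + q.2 ≤ k},
      ((Prod.fst ⁻¹' a' q.1 ∪ Prod.snd ⁻¹' b' q.2) ∪ (F q.1 ×ˢ G q.2)ᶜ), ?_, ?_, ?_, ?_, ?_, ?_, ?_⟩
  · refine (hU.prod hN).inter (hfin.isOpen_biInter fun q _ => ((ha _).prod (hb _)).union (hZ q))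
  · exact hfin.isOpen_biInter fun q _ =>
      (((ha' _).preimage continuous_fst).union ((hb' _).preimage continuous_snd)).union (hZ q)
  · rintro p ⟨hp1, hp2⟩
    refine ⟨⟨hKU hp1, hCN hp2⟩, ?_⟩
    simp only [mem_iInter]
    intro q _
    exact Or.inl ⟨hKa _ hp1, hCb _ hp2⟩
  · exact inter_subset_left
  · intro p hp
    by_contra hh
    apply hp
    simp only [mem_iInter]
    intro q _
    left
    rw [mem_prod, not_and_or] at hh
    rcases hh with hh | hh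
    · exact Or.inl (hUa _ hh)
    · exact Or.inr (hNb _ hh)
  · rintro p hp ⟨-, hT⟩ hT'
    obtain ⟨i, j, hij, hi, hj⟩ := h5 p hp
    simp only [mem_iInter] at hT hT'
    have hq : (i, j) ∈ {q : ℕ × ℕ | q.1 + q.2 ≤ k} := by simp only [mem_ofPred_eq]; omega
    rcases hT (i, j) hq with h6 | h6
    · rcases hT' (i, j) hq with (h7 | h7) | h7
      · exact haa i _ hi h6.1 h7
      · exact hbb j _ hj h6.2 h7
      · exact h7 ⟨hi, hj⟩
    · exact h6 ⟨hi, hj⟩
  · have hcF : ∀ i, IsClosed (F i \ (a i ∪ a' i)) := fun i =>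
      (h1 i).sdiff ((ha i).union (ha' i))
    have hcG : ∀ i, IsClosed (G i \ (b i ∪ b' i)) := fun i =>
      (h3 i).sdiff ((hb i).union (hb' i))
    refine ⟨fun i => F i ∪ (F (i + 1) \ (a (i + 1) ∪ a' (i + 1))),
      fun j => G j ∪ (G (j + 1) \ (b (j + 1) ∪ b' (j + 1))),
      fun i => (h1 i).union (hcF _), fun i => hX _ _ _ (h1 i) (hcF _) (h2 i) (hda _),
      fun i => (h3 i).union (hcG _), fun i => hY _ _ _ (h3 i) (hcG _) (h4 i) (hdb _), ?_⟩
    rintro p ⟨hp, hh⟩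
    rw [mem_union, not_or] at hh
    obtain ⟨hT, hT'⟩ := hh
    have hUN : p ∈ U ×ˢ N := by
      by_contra hh
      apply hT'
      simp only [mem_iInter]
      intro q _
      left
      rw [mem_prod, not_and_or] at hh
      rcases hh with hh | hh
      · exact Or.inl (hUa _ hh)
      · exact Or.inr (hNb _ hh)
    obtain ⟨i0, j0, hij0, hi0, hj0⟩ := h5 p hp
    by_contra hcon
    push Not at hcon
    have low : ∀ i j, p.1 ∈ F i → p.2 ∈ G j → k ≤ i + j := by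
      intro i j hi hj
      by_contra hlt
      exact hcon i j (by omega) (Or.inl hi) (Or.inl hj)
    apply hT
    refine ⟨hUN, ?_⟩
    simp only [mem_iInter] at hT' ⊢
    push Not at hT'
    obtain ⟨⟨i', j'⟩, hq', hT'⟩ := hT'
    simp only [mem_union, mem_preimage, mem_compl_iff, not_or, not_not] at hT'
    obtain ⟨⟨hna', hnb'⟩, hi', hj'⟩ := hT'
    rintro ⟨i, j⟩ hq
    by_contra hT
    simp only [mem_union, mem_compl_iff, not_or, not_not] at hT
    obtain ⟨hnab, hi, hj⟩ := hT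
    simp only [mem_ofPred_eq] at hq hq'
    obtain ⟨hi, hj⟩ : p.1 ∈ F i ∧ p.2 ∈ G j := ⟨hi, hj⟩
    obtain ⟨hi', hj'⟩ : p.1 ∈ F i' ∧ p.2 ∈ G j' := ⟨hi', hj'⟩
    have l1 := low i j hi hj
    have l2 := low i' j' hi' hj'
    have l3 := low i j' hi hj'
    have l4 := low i' j hi' hj
    have e1 : i' = i := by omega
    have e2 : j' = j := by omega
    subst e1 e2
    rw [mem_prod, not_and_or] at hnab
    rcases hnab with hna | hnb
    · have hm : p.1 ∈ F i' \ (a i' ∪ a' i') := ⟨hi, by rintro (h | h); exacts [hna h, hna' h]⟩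
      cases i' with
      | zero => exact (hda 0).false ⟨_, hm⟩
      | succ i => exact hcon i j' (by omega) (Or.inr hm) (Or.inl hj)
    · have hm : p.2 ∈ G j' \ (b j' ∪ b' j') := ⟨hj, by rintro (h | h); exacts [hnb h, hnb' h]⟩
      cases j' with
      | zero => exact (hdb 0).false ⟨_, hm⟩
      | succ j => exact hcon i' j (by omega) (Or.inl hi) (Or.inr hm)

end Pool.Agent.H532Z.IndProd
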